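import Pool.Agent.H91.RD.Targets

/-!
# Second derivatives along lines and the Laplacian
-/

open MeasureTheory Set Filter Topology Metric

namespace Pool.Agent.H90.RD

open Pool.Agent.H91.RD

variable {N : ℕ}

/-- the Laplacian as a sum of second derivatives along the standard basis -/
theorem lap_eq_sum (g : E N → ℝ) (x : E N) : Laplacian.laplacian g x =
    ∑ i, fderiv ℝ (fderiv ℝ g) x (EuclideanSpace.basisFun (Fin N) ℝ i)
      (EuclideanSpace.basisFun (Fin N) ℝ i) := by
  have h := congrFun (InnerProductSpace.laplacian_eq_iteratedFDeriv_orthonormalBasis g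
    (EuclideanSpace.basisFun (Fin N) ℝ)) x
  rw [h]
  refine Finset.sum_congr rfl fun i _ => ?_
  rw [iteratedFDeriv_two_apply]
  simp

/-- the derivative along a line of the directional derivative -/
theorem hasDerivAt_line2 {g : E N → ℝ} {x : E N} (hg : ContDiffAt ℝ 2 g x) (v : E N) :
    HasDerivAt (fun t : ℝ => fderiv ℝ g (x + t • v) v) (fderiv ℝ (fderiv ℝ g) x v v) 0 := by
  have h1 : DifferentiableAt ℝ (fderiv ℝ g) x :=
    (hg.fderiv_right (m := 1) (by norm_num)).differentiableAt (by norm_num)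
  have h2 : HasDerivAt (fun t : ℝ => x + t • v) v 0 := by
    have := ((hasDerivAt_id (0 : ℝ)).smul_const v).const_add x
    simpa using this
  have h3 : HasFDerivAt (fderiv ℝ g) (fderiv ℝ (fderiv ℝ g) x) (x + (0 : ℝ) • v) := by
    rw [zero_smul, add_zero]; exact h1.hasFDerivAt
  have h4 := h3.comp_hasDerivAt (0 : ℝ) h2
  exact (ContinuousLinearMap.apply ℝ ℝ v).hasFDerivAt.comp_hasDerivAt (0 : ℝ) h4

/-- the derivative along a line -/
theorem hasDerivAt_line1 {g : E N → ℝ} {x v : E N} {t : ℝ} (hg : DifferentiableAt ℝ g (x + t • v)) :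
    HasDerivAt (fun s : ℝ => g (x + s • v)) (fderiv ℝ g (x + t • v) v) t := by
  have h2 : HasDerivAt (fun t : ℝ => x + t • v) v t := by
    have := ((hasDerivAt_id t).smul_const v).const_add x
    simpa using this
  exact hg.hasFDerivAt.comp_hasDerivAt t h2

/-- near `0` the function along the line is differentiable -/
theorem eventually_line {g : E N → ℝ} {x : E N} (hg : ContDiffAt ℝ 2 g x) (v : E N) :
    ∀ᶠ t : ℝ in 𝓝 0, DifferentiableAt ℝ g (x + t • v) := by
  have h1 : ∀ᶠ y in 𝓝 x, DifferentiableAt ℝ g y := by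
    have h2 : ∀ᶠ y in 𝓝 x, ContDiffAt ℝ 2 g y := hg.eventually (by simp)
    filter_upwards [h2] with y hy
    exact hy.differentiableAt (by norm_num)
  have h3 : Tendsto (fun t : ℝ => x + t • v) (𝓝 0) (𝓝 x) := by
    have : Continuous fun t : ℝ => x + t • v := by fun_prop
    have h4 := this.tendsto 0
    simpa using h4
  exact h3.eventually h1

/-- `deriv (deriv φ) 0` for `φ t = g (x + t v)` -/
theorem deriv_deriv_line {g : E N → ℝ} {x : E N} (hg : ContDiffAt ℝ 2 g x) (v : E N) :
    deriv (deriv (fun t : ℝ => g (x + t • v))) 0 = fderiv ℝ (fderiv ℝ g) x v v := by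
  have h1 : deriv (fun t : ℝ => g (x + t • v)) =ᶠ[𝓝 0] fun t => fderiv ℝ g (x + t • v) v := by
    filter_upwards [eventually_line hg v] with t ht
    exact (hasDerivAt_line1 ht).deriv
  rw [h1.deriv_eq]
  exact (hasDerivAt_line2 hg v).deriv

/-- computing the second derivative along a line from formulas -/
theorem line_eq {g : E N → ℝ} {x v : E N} (hg : ContDiffAt ℝ 2 g x) {p : ℝ → ℝ} {q : ℝ}
    (h1 : ∀ t, HasDerivAt (fun t : ℝ => g (x + t • v)) (p t) t) (h2 : HasDerivAt p q 0) :
    fderiv ℝ (fderiv ℝ g) x v v = q := by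
  rw [← deriv_deriv_line hg v]
  have : deriv (fun t : ℝ => g (x + t • v)) = p := funext fun t => (h1 t).deriv
  rw [this]
  exact h2.deriv

/-- second derivative at a local minimum -/
theorem line_nonneg {g : E N → ℝ} {x : E N} (hg : ContDiffAt ℝ 2 g x) (hm : IsLocalMin g x)
    (v : E N) : 0 ≤ fderiv ℝ (fderiv ℝ g) x v v := by
  rw [← deriv_deriv_line hg v]
  by_contra hneg
  push Not at hneg
  set φ : ℝ → ℝ := fun t => g (x + t • v) with hφ
  have h0 : φ 0 = g x := by simp [hφ]
  have hmin : IsLocalMin φ 0 := by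
    have h3 : Tendsto (fun t : ℝ => x + t • v) (𝓝 0) (𝓝 x) := by
      have : Continuous fun t : ℝ => x + t • v := by fun_prop
      have h4 := this.tendsto 0
      simpa using h4
    have h4 := h3.eventually hm
    filter_upwards [h4] with t ht
    rw [h0]; exact ht
  have hd0 : deriv φ 0 = 0 := hmin.deriv_eq_zero
  have hc : ContinuousAt φ 0 := by
    have := (eventually_line hg v).self_of_nhds
    exact (hasDerivAt_line1 this).continuousAt
  have hmax : IsLocalMax φ 0 := isLocalMax_of_deriv_deriv_neg hneg hd0 hc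
  have hconst : φ =ᶠ[𝓝 0] fun _ => φ 0 := by
    filter_upwards [hmin, hmax] with t h1 h2
    exact le_antisymm h2 h1
  have h5 : deriv φ =ᶠ[𝓝 0] fun _ => 0 := by
    filter_upwards [hconst.eventuallyEq_nhds] with t ht
    rw [ht.deriv_eq]; simp
  rw [h5.deriv_eq] at hneg
  simp at hneg

/-- the Laplacian is nonnegative at a local minimum -/
theorem lap_nonneg {g : E N → ℝ} {x : E N} (hg : ContDiffAt ℝ 2 g x) (hm : IsLocalMin g x) :
    0 ≤ Laplacian.laplacian g x := by
  rw [lap_eq_sum]
  exact Finset.sum_nonneg fun i _ => line_nonneg hg hm _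

theorem sum_inner_sq (y : E N) :
    ∑ i, (inner ℝ y (EuclideanSpace.basisFun (Fin N) ℝ i)) ^ 2 = ‖y‖ ^ 2 := by
  rw [EuclideanSpace.norm_sq_eq]
  refine Finset.sum_congr rfl fun i _ => ?_
  rw [EuclideanSpace.basisFun_apply, EuclideanSpace.inner_single_right]
  simp

end Pool.Agent.H90.RD
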