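import Pool.Agent.H79.RD.Targets

/-! # AL: activation of a set of blocks -/

namespace Pool.Agent.H90.RD

open Finset Pool.Agent.H79.RD

theorem pf_AL : T_AC → T_AL := by
  intro hAC N b k a g R m p Forb A ζ0 ζ evs B U hPE hPN hpm hA hH hS hdis hcard hU
  induction B using Finset.induction_on with
  | empty =>
    refine ⟨ζ, evs, fun i _ => rfl, fun i hi => absurd hi (Finset.notMem_empty i), ?_, ?_⟩
    · rw [Finset.union_empty, Function.update_eq_self]
      exact hH
    · rw [Finset.union_empty]
      exact hS
  | @insert i B hi ih =>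
    rw [Finset.disjoint_insert_right] at hdis
    have hiA : i ∉ A p ∪ B := by
      rw [Finset.mem_union]
      rintro (h | h)
      · exact hdis.1 h
      · exact hi h
    have hun : A p ∪ insert i B = insert i (A p ∪ B) := Finset.union_insert _ _ _
    have hc1 : (A p ∪ B).card + 1 ≤ a := by
      rw [hun, Finset.card_insert_of_notMem hiA] at hcard
      exact hcard
    obtain ⟨ζ1, evs1, h1, h2, h3, h4⟩ := ih hdis.2 (by omega)
      (fun j hj => hU j (Finset.mem_insert_of_mem hj))
    have hAp : Function.update A p (A p ∪ B) p = A p ∪ B := Function.update_self ..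
    obtain ⟨ζ', evs', h1', h2', h3', h4'⟩ := hAC N b k a g R m p Forb
      (Function.update A p (A p ∪ B)) ζ0 ζ1 evs1 i (U i) hPE hPN hpm (by
        intro q
        by_cases hq : q = p
        · subst hq
          rw [hAp]
          omega
        · rw [Function.update_of_ne hq]
          exact hA q) h3 (by rw [hAp]; exact h4) (by rw [hAp]; exact hiA)
        (by rw [hAp]; exact hc1) (hU i (Finset.mem_insert_self _ _))
    rw [hAp, Function.update_idem, ← hun] at h3'
    rw [hAp, ← hun] at h4'
    refine ⟨ζ', evs', ?_, ?_, h3', h4'⟩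
    · intro i' hi'
      rw [Finset.mem_insert, not_or] at hi'
      rw [h1' i' hi'.1, h1 i' hi'.2]
    · intro i' hi' j hj
      rcases Finset.mem_insert.1 hi' with rfl | h
      · rw [h2' j hj, h1 i' hi]
      · have hne : i' ≠ i := fun h' => hi (h' ▸ h)
        rw [h1' i' hne]
        exact h2 i' h j hj

end Pool.Agent.H90.RD
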