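import Pool.Agent.H82.RD.Targets
import Pool.Agent.H82.RD.Basic

/-!
# Board rd82_modules, module ZSP: stable ideals are homogeneous in `Y`
-/

set_option autoImplicit false

open MvPolynomial

namespace Pool.Agent.H90.RD

open Pool.Agent.H82.RD

section general

variable {k V : Type} [Field k] [AddCommGroup V] [Module k V]

theorem aeval_mem (T : Module.End k V) (p : Submodule k V) (hT : ∀ f ∈ p, T f ∈ p)
    (P : Polynomial k) {f : V} (hf : f ∈ p) : Polynomial.aeval T P f ∈ p := by
  have hpow : ∀ n : ℕ, (T ^ n) f ∈ p := by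
    intro n
    induction n with
    | zero => simpa using hf
    | succ n ih =>
      rw [pow_succ', Module.End.mul_apply]
      exact hT _ ih
  rw [Polynomial.aeval_eq_sum_range, LinearMap.sum_apply]
  exact Submodule.sum_mem _ (fun i _ => by
    rw [LinearMap.smul_apply]
    exact p.smul_mem _ (hpow i))

/-- the components in different generalized eigenspaces of a vector of a stable subspace -/
theorem sep (T : Module.End k V) (p : Submodule k V) (hT : ∀ f ∈ p, T f ∈ p) (M : ℕ) (c : ℕ → k)
    (hc : ∀ i < M, ∀ j < M, c i = c j → i = j) (D : ℕ) (F : ℕ → V)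
    (hF : ∀ b < M, ((T - algebraMap k (Module.End k V) (c b)) ^ D) (F b) = 0)
    (hsum : ∑ b ∈ Finset.range M, F b ∈ p) : ∀ b < M, F b ∈ p := by
  classical
  intro b hb
  set L : ℕ → Polynomial k := fun j => (Polynomial.X - Polynomial.C (c j)) ^ D with hL
  have hLF : ∀ j < M, Polynomial.aeval T (L j) (F j) = 0 := by
    intro j hj
    have h1 : Polynomial.aeval T (L j) = (T - algebraMap k (Module.End k V) (c j)) ^ D := by
      rw [hL]
      simp only [map_pow, map_sub, Polynomial.aeval_X, Polynomial.aeval_C]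
    rw [h1]
    exact hF j hj
  have hcop : IsCoprime (∏ j ∈ (Finset.range M).erase b, L j) (L b) := by
    apply IsCoprime.prod_left
    intro j hj
    rw [Finset.mem_erase, Finset.mem_range] at hj
    apply IsCoprime.pow
    apply Polynomial.isCoprime_X_sub_C_of_isUnit_sub
    have h1 : c j - c b ≠ 0 := by
      intro h
      exact hj.1 (hc j hj.2 b hb (sub_eq_zero.1 h))
    exact isUnit_iff_ne_zero.2 h1
  obtain ⟨a, a', haa⟩ := hcop
  set E : Polynomial k := a * ∏ j ∈ (Finset.range M).erase b, L j with hE
  have h1 : Polynomial.aeval T E (∑ j ∈ Finset.range M, F j) = F b := by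
    rw [map_sum, Finset.sum_eq_single b]
    · have h2 : E = 1 - a' * L b := by rw [← haa]; ring
      rw [h2, map_sub, map_one, map_mul, LinearMap.sub_apply, Module.End.one_apply,
        Module.End.mul_apply, hLF b hb, map_zero, sub_zero]
    · intro j hj hjb
      have h2 : E = (a * ∏ i ∈ ((Finset.range M).erase b).erase j, L i) * L j := by
        rw [hE, mul_assoc, Finset.prod_erase_mul]
        exact Finset.mem_erase.2 ⟨hjb, hj⟩
      rw [h2, map_mul, Module.End.mul_apply, hLF j (Finset.mem_range.1 hj), map_zero]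
    · intro h
      exact absurd (Finset.mem_range.2 hb) h
  rw [← h1]
  exact aeval_mem T p hT E hsum

end general

variable {k : Type} [Field k] {u : ℕ}

/-- degree exactly `b` in `Y` and degree less than `d` in the `t_i` -/
def WS (b d : ℕ) (f : PR k u) : Prop :=
  ∀ m ∈ f.support, m none = b ∧ ∑ i : Fin u, m (some i) < d

theorem WS.zero (b d : ℕ) : WS b d (0 : PR k u) := by
  intro m hm
  simp at hm

theorem WS.add {b d : ℕ} {f g : PR k u} (hf : WS b d f) (hg : WS b d g) : WS b d (f + g) := by
  classical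
  intro m hm
  rcases Finset.mem_union.1 (support_add hm) with h | h
  · exact hf m h
  · exact hg m h

theorem WS.mono {b d d' : ℕ} {f : PR k u} (hf : WS b d f) (h : d ≤ d') : WS b d' f :=
  fun m hm => ⟨(hf m hm).1, (hf m hm).2.trans_le h⟩

theorem WS.mul {b b' d d' : ℕ} {f g : PR k u} (hf : WS b d f) (hg : WS b' (d' + 1) g) :
    WS (b + b') (d + d') (f * g) := by
  classical
  intro m hm
  obtain ⟨m₁, h₁, m₂, h₂, rfl⟩ := Finset.mem_add.1 (support_mul f g hm)
  have e1 := hf m₁ h₁
  have e2 := hg m₂ h₂
  simp only [Finsupp.add_apply, Finset.sum_add_distrib]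
  omega

theorem WS.mulC {b d : ℕ} {f : PR k u} (hf : WS b d f) (c : k) : WS b d (C c * f) := by
  intro m hm
  apply hf m
  rw [mem_support_iff] at hm ⊢
  intro h
  rw [coeff_C_mul, h, mul_zero] at hm
  exact hm rfl

theorem WS.const (c : k) : WS 0 1 (C c : PR k u) := by
  intro m hm
  have : m = 0 := by
    by_contra h
    rw [mem_support_iff, coeff_C, if_neg (Ne.symm h)] at hm
    exact hm rfl
  subst this
  simp

theorem WS.eq_zero {b : ℕ} {f : PR k u} (hf : WS b 0 f) : f = 0 := by
  rw [← support_eq_empty, Finset.eq_empty_iff_forall_notMem]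
  intro m hm
  exact absurd (hf m hm).2 (Nat.not_lt_zero _)

/-- the translation changes `f` by the factor `y ^ b`, up to a polynomial of lower degree -/
def Cl (w : Fin u → k) (y : k) (b d : ℕ) (f : PR k u) : Prop :=
  WS b (d + 1) f ∧ WS b d (tr w y f - C (y ^ b) * f)

variable {w : Fin u → k} {y : k}

theorem Cl.tr_mem {b d : ℕ} {f : PR k u} (hf : Cl w y b d f) : WS b (d + 1) (tr w y f) := by
  have h : tr w y f = (tr w y f - C (y ^ b) * f) + C (y ^ b) * f := by ring
  rw [h]
  exact (hf.2.mono (Nat.le_succ d)).add (hf.1.mulC _)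

theorem Cl.mul {b b' d d' : ℕ} {f g : PR k u} (hf : Cl w y b d f) (hg : Cl w y b' d' g) :
    Cl w y (b + b') (d + d') (f * g) := by
  refine ⟨?_, ?_⟩
  · have := hf.1.mul hg.1
    exact this.mono (by omega)
  · have h : tr w y (f * g) - C (y ^ (b + b')) * (f * g) =
        (tr w y f - C (y ^ b) * f) * tr w y g +
          C (y ^ b) * ((tr w y g - C (y ^ b') * g) * f) := by
      rw [map_mul, pow_add, C_mul]
      ring
    rw [h]
    refine (hf.2.mul hg.tr_mem).add (WS.mulC ?_ _)
    have h2 := hg.2.mul hf.1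
    rw [add_comm b' b, add_comm d' d] at h2
    exact h2

theorem Cl.add {b d : ℕ} {f g : PR k u} (hf : Cl w y b d f) (hg : Cl w y b d g) :
    Cl w y b d (f + g) := by
  refine ⟨hf.1.add hg.1, ?_⟩
  have h : tr w y (f + g) - C (y ^ b) * (f + g) =
      (tr w y f - C (y ^ b) * f) + (tr w y g - C (y ^ b) * g) := by
    rw [map_add]
    ring
  rw [h]
  exact hf.2.add hg.2

theorem Cl.zero (b d : ℕ) : Cl w y b d (0 : PR k u) := by
  refine ⟨WS.zero _ _, ?_⟩
  rw [map_zero, mul_zero, sub_zero]
  exact WS.zero _ _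

theorem Cl.sum {b d : ℕ} {ι : Type} (s : Finset ι) (F : ι → PR k u)
    (h : ∀ i ∈ s, Cl w y b d (F i)) : Cl w y b d (∑ i ∈ s, F i) := by
  classical
  induction s using Finset.induction_on with
  | empty => exact Cl.zero b d
  | insert a s ha ih =>
    rw [Finset.sum_insert ha]
    exact (h a (Finset.mem_insert_self a s)).add
      (ih (fun i hi => h i (Finset.mem_insert_of_mem hi)))

theorem Cl.const (c : k) : Cl w y 0 0 (C c : PR k u) := by
  refine ⟨WS.const c, ?_⟩
  have h : tr w y (C c : PR k u) - C (y ^ 0) * C c = 0 := by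
    rw [algHom_C, algebraMap_eq]
    simp
  rw [h]
  exact WS.zero _ _

theorem Cl.X_none : Cl w y 1 0 (X none : PR k u) := by
  classical
  refine ⟨?_, ?_⟩
  · intro m hm
    rw [support_X, Finset.mem_singleton] at hm
    subst hm
    simp [Finsupp.single_apply]
  · have h : tr w y (X none : PR k u) - C (y ^ 1) * X none = 0 := by
      rw [tr_none, pow_one, sub_self]
    rw [h]
    exact WS.zero _ _

theorem Cl.X_some (i : Fin u) : Cl w y 0 1 (X (some i) : PR k u) := by
  classical
  refine ⟨?_, ?_⟩
  · intro m hm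
    rw [support_X, Finset.mem_singleton] at hm
    subst hm
    simp [Finsupp.single_apply]
  · have h : tr w y (X (some i) : PR k u) - C (y ^ 0) * X (some i) = C (w i) := by
      rw [tr_some, pow_zero, C_1]
      ring
    rw [h]
    exact WS.const _

theorem Cl.pow {b d : ℕ} {f : PR k u} (hf : Cl w y b d f) (n : ℕ) :
    Cl w y (n * b) (n * d) (f ^ n) := by
  induction n with
  | zero =>
    rw [pow_zero, Nat.zero_mul, Nat.zero_mul]
    exact Cl.const 1
  | succ n ih =>
    rw [pow_succ, Nat.succ_mul, Nat.succ_mul]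
    exact ih.mul hf

theorem Cl.prod_some (m : Option (Fin u) →₀ ℕ) (s : Finset (Fin u)) :
    Cl w y 0 (∑ i ∈ s, m (some i)) (∏ i ∈ s, (X (some i) : PR k u) ^ m (some i)) := by
  classical
  induction s using Finset.induction_on with
  | empty =>
    rw [Finset.sum_empty, Finset.prod_empty]
    exact Cl.const 1
  | insert a s ha ih =>
    rw [Finset.sum_insert ha, Finset.prod_insert ha]
    have h1 := (Cl.X_some (w := w) (y := y) a).pow (m (some a))
    rw [Nat.mul_zero, Nat.mul_one] at h1
    exact h1.mul ih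

theorem Cl.monomial (m : Option (Fin u) →₀ ℕ) (a : k) :
    Cl w y (m none) (∑ i : Fin u, m (some i)) (MvPolynomial.monomial m a : PR k u) := by
  classical
  have h1 : (MvPolynomial.monomial m a : PR k u) =
      C a * (X none ^ m none * ∏ i : Fin u, X (some i) ^ m (some i)) := by
    rw [monomial_eq, Finsupp.prod_fintype _ _ (fun i => pow_zero _), Fintype.prod_option]
  rw [h1]
  have h2 := (Cl.X_none (w := w) (y := y) (u := u)).pow (m none)
  rw [Nat.mul_zero, Nat.mul_one] at h2
  have h3 := (Cl.const (w := w) (y := y) a).mul (h2.mul (Cl.prod_some m Finset.univ))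
  simpa only [Nat.zero_add, Nat.add_zero] using h3

theorem Cl.mono {b d d' : ℕ} {f : PR k u} (hf : Cl w y b d f) (h : d ≤ d') : Cl w y b d' f :=
  ⟨hf.1.mono (by omega), hf.2.mono h⟩

theorem Cl.of_WS {b d : ℕ} {f : PR k u} (hf : WS b (d + 1) f) : Cl w y b d f := by
  rw [f.as_sum]
  apply Cl.sum
  intro m hm
  have h1 := hf m hm
  have h2 := Cl.monomial (w := w) (y := y) m (f.coeff m)
  rw [h1.1] at h2
  exact h2.mono (by omega)

/-- nilpotency -/
theorem nilp (b : ℕ) : ∀ (d : ℕ) (f : PR k u), WS b d f →
    (((tr w y).toLinearMap - algebraMap k (Module.End k (PR k u)) (y ^ b)) ^ d) f = 0 := by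
  intro d
  induction d with
  | zero =>
    intro f hf
    rw [hf.eq_zero, map_zero]
  | succ d ih =>
    intro f hf
    rw [pow_succ, Module.End.mul_apply]
    apply ih
    have h1 := (Cl.of_WS (w := w) (y := y) hf).2
    have h2 : ((tr w y).toLinearMap - algebraMap k (Module.End k (PR k u)) (y ^ b)) f =
        tr w y f - C (y ^ b) * f := by
      rw [LinearMap.sub_apply, AlgHom.toLinearMap_apply, Module.algebraMap_end_apply,
        smul_eq_C_mul]
    rw [h2]
    exact h1

theorem yc_WS (b d : ℕ) (f : PR k u) (hf : ∀ m ∈ f.support, ∑ i : Fin u, m (some i) < d) :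
    WS b d (yc b f) := by
  classical
  intro m hm
  unfold yc at hm
  obtain ⟨m', hm', hmm⟩ := Finset.mem_biUnion.1 (support_sum hm)
  have h1 := support_monomial_subset hmm
  rw [Finset.mem_singleton] at h1
  subst h1
  rw [Finset.mem_filter] at hm'
  exact ⟨hm'.2, hf m hm'.1⟩

theorem pf_ZSP : T_ZSP := by
  classical
  intro k _ _ u w y p hy hroot hst f hf b
  -- bounds for the degrees
  obtain ⟨M, hM⟩ : ∃ M : ℕ, ∀ m ∈ f.support, m none < M := by
    refine ⟨f.support.sup (fun m => m none) + 1, fun m hm => ?_⟩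
    exact Nat.lt_succ_of_le (Finset.le_sup (f := fun m : Option (Fin u) →₀ ℕ => m none) hm)
  obtain ⟨D, hD⟩ : ∃ D : ℕ, ∀ m ∈ f.support, ∑ i : Fin u, m (some i) < D := by
    refine ⟨f.support.sup (fun m => ∑ i : Fin u, m (some i)) + 1, fun m hm => ?_⟩
    exact Nat.lt_succ_of_le
      (Finset.le_sup (f := fun m : Option (Fin u) →₀ ℕ => ∑ i : Fin u, m (some i)) hm)
  by_cases hb : b < M
  · have hsum : ∑ b ∈ Finset.range M, yc b f = f := by
      unfold yc
      rw [Finset.sum_fiberwise_of_maps_to (fun m hm => Finset.mem_range.2 (hM m hm))]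
      exact (f.as_sum).symm
    refine sep (tr w y).toLinearMap (p.restrictScalars k) (fun g hg => hst g hg) M
      (fun b => y ^ b) ?_ D (fun b => yc b f) ?_ ?_ b hb
    · have key : ∀ i j : ℕ, i < j → y ^ i ≠ y ^ j := by
        intro i j hij h
        apply hroot (j - i) (by omega)
        have h1 : y ^ j = y ^ i * y ^ (j - i) := by
          rw [← pow_add]
          congr 1
          omega
        rw [h1] at h
        have h2 : y ^ i * 1 = y ^ i * y ^ (j - i) := by rw [mul_one]; exact h
        exact (mul_left_cancel₀ (pow_ne_zero i hy) h2).symm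
      intro i _ j _ hij
      rcases Nat.lt_trichotomy i j with h | h | h
      · exact absurd hij (key i j h)
      · exact h
      · exact absurd hij.symm (key j i h)
    · intro c _
      exact nilp c D _ (yc_WS c D f hD)
    · rw [hsum]
      exact hf
  · have h0 : yc b f = 0 := by
      unfold yc
      rw [Finset.sum_eq_zero]
      intro m hm
      rw [Finset.mem_filter] at hm
      exact absurd (hm.2 ▸ hM m hm.1) hb
    rw [h0]
    exact p.zero_mem

end Pool.Agent.H90.RD
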