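import Pool.Agent.H82.RD.Targets
import Pool.Agent.H82.RD.Basic

/-!
# Board rd82_modules, module ZUV: the stabilizer is a subspace
-/

set_option autoImplicit false

open MvPolynomial

namespace Pool.Agent.H90.RD

open Pool.Agent.H82.RD

variable {k : Type} [Field k] {u : ℕ}

theorem tr_ren (w : Fin u → k) (f : MvPolynomial (Fin u) k) :
    tr w 1 (rename some f) =
      rename some (aeval (fun i => (X i + C (w i) : MvPolynomial (Fin u) k)) f) := by
  have h : (tr w 1).comp (rename (R := k) some) =
      (rename some).comp (aeval (fun i => (X i + C (w i) : MvPolynomial (Fin u) k))) := by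
    apply algHom_ext
    intro i
    simp
  exact congrArg (fun g : MvPolynomial (Fin u) k →ₐ[k] PR k u => g f) h

/-- the polynomial `s ↦ tr (s w) 1` -/
noncomputable def Ph (w : Fin u → k) : PR k u →ₐ[k] Polynomial (PR k u) :=
  aeval (fun o : Option (Fin u) => o.elim (Polynomial.C (X none))
    (fun i => Polynomial.C (X (some i)) + Polynomial.X * Polynomial.C (C (w i))))

theorem Ph_eval (w : Fin u → k) (s : k) (F : PR k u) :
    (Ph w F).eval (C s) = tr (s • w) 1 F := by
  have h : ((Polynomial.aeval (C s : PR k u)).restrictScalars k).comp (Ph w) =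
      tr (s • w) 1 := by
    apply algHom_ext
    intro o
    cases o with
    | none =>
      simp [Ph]
    | some i =>
      simp [Ph]
      exact mul_comm _ _
  have h2 := congrArg (fun g : PR k u →ₐ[k] PR k u => g F) h
  simp only [AlgHom.comp_apply, AlgHom.restrictScalars_apply] at h2
  rw [← h2]
  exact (Polynomial.coe_aeval_eq_eval (C s : PR k u) ▸ rfl)

theorem key [CharZero k] (p : Submodule k (PR k u)) (w : Fin u → k) (F : PR k u)
    (h : ∀ n : ℕ, tr ((n : k) • w) 1 F ∈ p) (s : k) : tr (s • w) 1 F ∈ p := by
  by_contra hs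
  obtain ⟨φ, hφ, hp⟩ := Submodule.exists_le_ker_of_notMem hs
  set G := Ph w F with hG
  set g : Polynomial k := ∑ i ∈ Finset.range (G.natDegree + 1),
    Polynomial.C (φ (G.coeff i)) * Polynomial.X ^ i with hg
  have hev : ∀ s : k, g.eval s = φ (tr (s • w) 1 F) := by
    intro s
    rw [← Ph_eval, Polynomial.eval_eq_sum_range (p := Ph w F), map_sum, hg,
      Polynomial.eval_finsetSum]
    refine Finset.sum_congr rfl (fun i _ => ?_)
    have h1 : G.coeff i * (C s : PR k u) ^ i = (s ^ i) • G.coeff i := by
      rw [← C_pow, mul_comm, smul_eq_C_mul]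
    rw [h1, map_smul, smul_eq_mul]
    simp only [Polynomial.eval_mul, Polynomial.eval_C, Polynomial.eval_pow, Polynomial.eval_X]
    ring
  have h0 : g = 0 := by
    apply Polynomial.eq_zero_of_infinite_isRoot
    apply Set.Infinite.mono (s := Set.range (fun n : ℕ => (n : k)))
    · rintro _ ⟨n, rfl⟩
      show g.eval (n : k) = 0
      rw [hev]
      exact LinearMap.mem_ker.1 (hp (h n))
    · exact Set.infinite_range_of_injective Nat.cast_injective
  apply hφ
  rw [← hev, h0, Polynomial.eval_zero]

theorem pf_ZUV : T_ZUV := by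
  intro k _ _ u p
  have hadd : ∀ w w' : Fin u → k,
      (∀ f : MvPolynomial (Fin u) k, rename some f ∈ p → tr w 1 (rename some f) ∈ p) →
      (∀ f : MvPolynomial (Fin u) k, rename some f ∈ p → tr w' 1 (rename some f) ∈ p) →
      ∀ f : MvPolynomial (Fin u) k, rename some f ∈ p → tr (w + w') 1 (rename some f) ∈ p := by
    intro w w' hw hw' f hf
    have h1 := tr_tr w w' 1 1 (rename some f : PR k u)
    rw [mul_one] at h1
    rw [← h1, tr_ren w' f]
    apply hw
    rw [← tr_ren w' f]
    exact hw' f hf
  have hnat : ∀ w : Fin u → k,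
      (∀ f : MvPolynomial (Fin u) k, rename some f ∈ p → tr w 1 (rename some f) ∈ p) →
      ∀ n : ℕ, ∀ f : MvPolynomial (Fin u) k, rename some f ∈ p →
        tr ((n : k) • w) 1 (rename some f) ∈ p := by
    intro w hw n
    induction n with
    | zero =>
      intro f hf
      rw [Nat.cast_zero, zero_smul, tr_id]
      exact hf
    | succ n ih =>
      have h1 : ((n + 1 : ℕ) : k) • w = (n : k) • w + w := by
        push_cast
        rw [add_smul, one_smul]
      rw [h1]
      exact hadd _ _ ih hw
  refine ⟨{ carrier := {w | ∀ f : MvPolynomial (Fin u) k, rename some f ∈ p →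
              tr w 1 (rename some f) ∈ p}
            add_mem' := fun {a b} ha hb => hadd a b ha hb
            zero_mem' := fun f hf => by rw [tr_id]; exact hf
            smul_mem' := fun c w hw f hf => ?_ }, fun w => Iff.rfl⟩
  exact key (p.restrictScalars k) w (rename some f) (fun n => hnat w hw n f hf) c

end Pool.Agent.H90.RD
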