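import Pool.Agent.H91.RD.Targets

/-!
# Module FRP: estimates on the front profile
-/

open MeasureTheory Set Filter Topology Metric

namespace Pool.Agent.H90.RD

open Pool.Agent.H91.RD

theorem monoOn_Iic {G G' : ℝ → ℝ} {b : ℝ} (h : ∀ z ≤ b, HasDerivAt G (G' z) z)
    (h' : ∀ z ≤ b, 0 ≤ G' z) : MonotoneOn G (Iic b) := by
  have hi : ∀ z ∈ interior (Iic b), z ∈ Iic b := fun z hz => interior_subset hz
  refine monotoneOn_of_deriv_nonneg (convex_Iic b)
    (fun z hz => (h z hz).continuousAt.continuousWithinAt)
    (fun z hz => ((h z (hi z hz)).differentiableAt).differentiableWithinAt) ?_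
  intro z hz
  rw [(h z (hi z hz)).deriv]
  exact h' z (hi z hz)

theorem monoOn_Ici {G G' : ℝ → ℝ} {b : ℝ} (h : ∀ z ≥ b, HasDerivAt G (G' z) z)
    (h' : ∀ z ≥ b, 0 ≤ G' z) : MonotoneOn G (Ici b) := by
  have hi : ∀ z ∈ interior (Ici b), z ∈ Ici b := fun z hz => interior_subset hz
  refine monotoneOn_of_deriv_nonneg (convex_Ici b)
    (fun z hz => (h z hz).continuousAt.continuousWithinAt)
    (fun z hz => ((h z (hi z hz)).differentiableAt).differentiableWithinAt) ?_
  intro z hz
  rw [(h z (hi z hz)).deriv]
  exact h' z (hi z hz)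

theorem nonneg_of_mono_bot {G : ℝ → ℝ} {b : ℝ} (h : MonotoneOn G (Iic b))
    (h0 : Tendsto G atBot (𝓝 0)) {z : ℝ} (hz : z ≤ b) : 0 ≤ G z := by
  refine le_of_tendsto h0 ?_
  filter_upwards [eventually_le_atBot z] with s hs
  exact h (hs.trans hz) hz hs

theorem tendsto_exp_mul_bdd {a M : ℝ} (ha : 0 < a) {g : ℝ → ℝ} (hg : ∀ z, |g z| ≤ M) :
    Tendsto (fun z => Real.exp (a * z) * g z) atBot (𝓝 0) := by
  have h1 : Tendsto (fun z : ℝ => Real.exp (a * z)) atBot (𝓝 0) :=
    Real.tendsto_exp_atBot.comp (tendsto_id.const_mul_atBot ha)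
  refine squeeze_zero_norm (a := fun z => Real.exp (a * z) * M) (fun z => ?_) ?_
  · rw [Real.norm_eq_abs, abs_mul, abs_of_pos (Real.exp_pos _)]
    exact mul_le_mul_of_nonneg_left (hg z) (Real.exp_pos _).le
  · simpa using h1.mul_const M

theorem hasDerivAt_exp_mul (a z : ℝ) :
    HasDerivAt (fun z => Real.exp (a * z)) (a * Real.exp (a * z)) z := by
  have h1 : HasDerivAt (fun z : ℝ => a * z) a z := by
    simpa using (hasDerivAt_id z).const_mul a
  have h2 := h1.exp
  exact h2.congr_deriv (by ring)

theorem FRP : T_FRP := by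
  intro f φ c lam K k μ η0 θ H
  have F := H.front
  have hc : 0 < c := F.cpos
  have hK : 0 < K := H.toLip.K0
  have hlam : 0 < lam := by have := F.fast; linarith
  have hμ := H.mu0
  -- derivatives
  have d1 : ∀ z, HasDerivAt φ (deriv φ z) z := fun z =>
    (F.c2.differentiable (by norm_num)).differentiableAt.hasDerivAt
  have hC1 : ContDiff ℝ 1 (deriv φ) := by
    have : ContDiff ℝ (1 + 1) φ := by rw [one_add_one_eq_two]; exact F.c2
    exact (contDiff_succ_iff_deriv.1 this).2.2
  have d2 : ∀ z, HasDerivAt (deriv φ) (deriv (deriv φ) z) z := fun z =>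
    (hC1.differentiable (by norm_num)).differentiableAt.hasDerivAt
  have hanti : StrictAnti φ := strictAnti_of_deriv_neg F.dec
  have hpos : ∀ z, 0 < φ z := fun z =>
    lt_of_le_of_lt (hanti.antitone.le_of_tendsto F.right (z + 1)) (hanti (by linarith))
  have hlt : ∀ z, φ z < 1 := fun z =>
    lt_of_lt_of_le (hanti (show z - 1 < z by linarith))
      (hanti.antitone.ge_of_tendsto F.left (z - 1))
  have hf0 : ∀ z, |f (φ z)| ≤ K * φ z := by
    intro z
    have := H.toLip.lip (φ z) 0
    rw [H.toLip.f0, sub_zero, sub_zero, abs_of_pos (hpos z)] at this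
    exact this
  have hf1 : ∀ z, |f (φ z)| ≤ K * (1 - φ z) := by
    intro z
    have := H.toLip.lip (φ z) 1
    rw [H.toLip.f1, sub_zero, abs_sub_comm, abs_of_pos (show 0 < 1 - φ z by linarith [hlt z])] at this
    exact this
  have hfK : ∀ z, |f (φ z)| ≤ K := fun z => (hf0 z).trans (by nlinarith [hlt z, hpos z])
  set p : ℝ → ℝ := fun z => -deriv φ z with hp
  have hp0 : ∀ z, 0 < p z := fun z => neg_pos.2 (F.dec z)
  have hp' : ∀ z, HasDerivAt p (f (φ z) - c * p z) z := by
    intro z
    have h1 := (d2 z).neg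
    refine h1.congr_deriv ?_
    have := F.eqn z
    simp only [hp]
    linarith
  -- bound of p
  have hpK : ∀ z, p z ≤ K / c := by
    intro z1
    by_contra hcon
    push Not at hcon
    have hg : ∀ z, HasDerivAt (fun z => -(Real.exp (c * z) * (p z - K / c)))
        (-(Real.exp (c * z) * (f (φ z) - K))) z := by
      intro z
      have h1 := ((hasDerivAt_exp_mul c z).mul ((hp' z).sub_const (K / c))).neg
      refine h1.congr_deriv ?_
      field_simp
      ring
    have hm := monoOn_Iic (b := z1) (fun z _ => hg z) (fun z _ => by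
      have h1 := (abs_le.1 (hfK z)).2
      have h2 := Real.exp_pos (c * z)
      nlinarith)
    have hge : ∀ z ≤ z1, K / c ≤ p z := by
      intro z hz
      have h1 := hm hz (mem_Iic.2 le_rfl) hz
      simp only at h1
      have h2 := mul_pos (Real.exp_pos (c * z1)) (sub_pos.2 hcon)
      have h3 : 0 < Real.exp (c * z) * (p z - K / c) := by linarith
      have h4 := (mul_pos_iff_of_pos_left (Real.exp_pos (c * z))).1 h3
      linarith
    have h5 : φ z1 - φ (z1 - c / K) ≤ -(K / c) * (z1 - (z1 - c / K)) := by
      refine Convex.image_sub_le_mul_sub_of_deriv_le (convex_Iic z1)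
        (fun z _ => (d1 z).continuousAt.continuousWithinAt)
        (fun z _ => (d1 z).differentiableAt.differentiableWithinAt) ?_ _ ?_ _ (mem_Iic.2 le_rfl) ?_
      · intro z hz
        have hz' : z ∈ Iic z1 := interior_subset hz
        have := hge z hz'
        simp only [hp] at this
        linarith
      · have : 0 < c / K := by positivity
        rw [mem_Iic]; linarith
      · have : 0 < c / K := by positivity
        linarith
    have h6 : -(K / c) * (z1 - (z1 - c / K)) = -1 := by field_simp; ring
    have h7 := hlt (z1 - c / K)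
    have h8 := hpos z1
    linarith
  have habs1 : ∀ z, |deriv φ z| = p z := fun z => by
    rw [← abs_neg, abs_of_pos (hp0 z)]
  have habs2 : ∀ z, |deriv (deriv φ) z| ≤ c * p z + |f (φ z)| := by
    intro z
    have h1 : deriv (deriv φ) z = c * p z - f (φ z) := by
      have := F.eqn z
      simp only [hp]; linarith
    rw [h1]
    refine (abs_sub _ _).trans ?_
    rw [abs_of_pos (mul_pos hc (hp0 z))]
  -- right side
  obtain ⟨C0, hC0⟩ := F.decay
  have hC0' : 0 < C0 := by
    have h1 := (hpos 0).trans_le (hC0 0)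
    simpa using h1
  have hcl : 0 < c - lam := by have := H.lamc; linarith
  set C1 : ℝ := p 0 + K * C0 / (c - lam) with hC1'
  have hC1pos : 0 < C1 := by have := hp0 0; positivity
  have hpr : ∀ z ≥ 0, p z ≤ C1 * Real.exp (-(lam * z)) := by
    intro z hz
    have hg : ∀ z, HasDerivAt (fun z => K * C0 / (c - lam) * Real.exp ((c - lam) * z) -
        Real.exp (c * z) * p z)
        (K * C0 * Real.exp ((c - lam) * z) - Real.exp (c * z) * f (φ z)) z := by
      intro z
      have h1 := ((hasDerivAt_exp_mul (c - lam) z).const_mul (K * C0 / (c - lam))).sub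
        ((hasDerivAt_exp_mul c z).mul (hp' z))
      refine h1.congr_deriv ?_
      field_simp
      ring
    have hexp : ∀ z, Real.exp ((c - lam) * z) = Real.exp (c * z) * Real.exp (-lam * z) := by
      intro z
      rw [← Real.exp_add]; congr 1; ring
    have hm := monoOn_Ici (b := 0) (fun z _ => hg z) (fun z _ => by
      have h1 := (abs_le.1 (hf0 z)).2
      have h2 := hC0 z
      have h3 := Real.exp_pos (c * z)
      have h4 : f (φ z) ≤ K * C0 * Real.exp (-lam * z) := by nlinarith
      rw [hexp]
      nlinarith)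
    have h1 := hm (mem_Ici.2 le_rfl) (mem_Ici.2 hz) hz
    simp only [mul_zero, Real.exp_zero, mul_one, one_mul] at h1
    have h2 : Real.exp (c * z) * p z ≤ C1 * Real.exp ((c - lam) * z) := by
      have h3 : 1 ≤ Real.exp ((c - lam) * z) := Real.one_le_exp (by positivity)
      have h4 := hp0 0
      have h5 : 0 < K * C0 / (c - lam) := by positivity
      rw [hC1']
      nlinarith
    rw [hexp, show C1 * (Real.exp (c * z) * Real.exp (-lam * z)) =
      Real.exp (c * z) * (C1 * Real.exp (-lam * z)) by ring] at h2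
    have h3 := le_of_mul_le_mul_left h2 (Real.exp_pos _)
    rwa [neg_mul] at h3
  -- left side
  obtain ⟨z0, hz0⟩ : ∃ z0 : ℝ, ∀ z ≤ z0, 1 - η0 ≤ φ z := by
    have h1 : ∀ᶠ z in atBot, 1 - η0 < φ z :=
      F.left.eventually (lt_mem_nhds (by have := H.eta0; linarith))
    obtain ⟨z0, h⟩ := eventually_atBot.1 h1
    exact ⟨z0, fun z hz => (h z hz).le⟩
  set z1 : ℝ := min z0 0 with hz1
  have hz10 : z1 ≤ 0 := min_le_right _ _
  have hnear : ∀ z ≤ z1, μ * (1 - φ z) ≤ f (φ z) := by
    intro z hz
    have h1 := H.near1 (φ z) 1 (hz0 z (hz.trans (min_le_left _ _))) (hlt z).le le_rfl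
    rw [H.toLip.f1] at h1
    linarith
  set β : ℝ := (-c + √(c ^ 2 + 4 * μ)) / 2 with hβ
  have hβ0 : 0 < β := by
    have h1 : c < √(c ^ 2 + 4 * μ) := Real.lt_sqrt_of_sq_lt (by linarith)
    rw [hβ]; linarith
  have hβeq : β * (c + β) = μ := by
    have h1 : √(c ^ 2 + 4 * μ) ^ 2 = c ^ 2 + 4 * μ := Real.sq_sqrt (by positivity)
    rw [hβ]
    nlinarith
  have hD : ∀ z ≤ z1, β * (1 - φ z) ≤ p z := by
    intro z hz
    have hg : ∀ z, HasDerivAt (fun z => Real.exp ((c + β) * z) * (p z - β * (1 - φ z)))
        (Real.exp ((c + β) * z) * (f (φ z) - μ * (1 - φ z))) z := by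
      intro z
      have e1 : HasDerivAt (fun z => p z - β * (1 - φ z)) (f (φ z) - c * p z - β * p z) z := by
        have := (hp' z).sub (((d1 z).const_sub 1).const_mul β)
        exact this.congr_deriv (by simp only [hp])
      have h1 := (hasDerivAt_exp_mul (c + β) z).mul e1
      refine h1.congr_deriv ?_
      rw [← hβeq]
      ring
    have hm := monoOn_Iic (b := z1) (fun z _ => hg z) (fun z hz => by
      have h1 := hnear z hz
      have h2 := Real.exp_pos ((c + β) * z)
      exact mul_nonneg h2.le (by linarith))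
    have hlim : Tendsto (fun z => Real.exp ((c + β) * z) * (p z - β * (1 - φ z))) atBot (𝓝 0) := by
      refine tendsto_exp_mul_bdd (M := K / c + β) (by positivity) fun z => ?_
      rw [abs_le]
      have h1 := hpK z
      have h2 := hp0 z
      have h3 := hlt z
      have h4 := hpos z
      constructor <;> nlinarith
    have h1 := nonneg_of_mono_bot hm hlim hz
    have h2 := (mul_nonneg_iff_of_pos_left (Real.exp_pos ((c + β) * z))).1 h1
    linarith
  set A : ℝ := Real.exp (-(β * z1)) with hA
  have hA1 : 1 ≤ A := Real.one_le_exp (by nlinarith)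
  have hexpA : ∀ z, A * Real.exp (β * z) = Real.exp (β * (z - z1)) := by
    intro z
    rw [hA, ← Real.exp_add]; congr 1; ring
  have hv : ∀ z ≤ 0, 1 - φ z ≤ A * Real.exp (β * z) := by
    intro z hz
    rw [hexpA]
    by_cases hzz : z ≤ z1
    · have hg : ∀ z, HasDerivAt (fun z => Real.exp (-β * z) * (1 - φ z))
          (Real.exp (-β * z) * (p z - β * (1 - φ z))) z := by
        intro z
        have h1 := (hasDerivAt_exp_mul (-β) z).mul ((d1 z).const_sub 1)
        refine h1.congr_deriv ?_
        simp only [hp]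
        ring
      have hm := monoOn_Iic (b := z1) (fun z _ => hg z) (fun z hz => by
        have h1 := hD z hz
        exact mul_nonneg (Real.exp_pos _).le (by linarith))
      have h1 := hm hzz (mem_Iic.2 le_rfl) hzz
      simp only at h1
      have h2 : Real.exp (-β * z1) * (1 - φ z1) ≤ Real.exp (-β * z1) := by
        have := hpos z1
        have h3 := Real.exp_pos (-β * z1)
        nlinarith
      have h3 : Real.exp (β * z) * (Real.exp (-β * z) * (1 - φ z)) ≤
          Real.exp (β * z) * Real.exp (-β * z1) :=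
        mul_le_mul_of_nonneg_left (h1.trans h2) (Real.exp_pos _).le
      rw [← mul_assoc, ← Real.exp_add, ← Real.exp_add] at h3
      have e1 : β * z + -β * z = 0 := by ring
      have e2 : β * z + -β * z1 = β * (z - z1) := by ring
      rw [e1, e2, Real.exp_zero, one_mul] at h3
      exact h3
    · push Not at hzz
      have h1 : 1 ≤ Real.exp (β * (z - z1)) :=
        Real.one_le_exp (mul_nonneg hβ0.le (by linarith))
      have := hpos z
      linarith
  have hpl : ∀ z ≤ 0, p z ≤ K * A / (c + β) * Real.exp (β * z) := by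
    intro z hz
    have hg : ∀ z, HasDerivAt (fun z => K * A / (c + β) * Real.exp ((c + β) * z) -
        Real.exp (c * z) * p z)
        (K * A * Real.exp ((c + β) * z) - Real.exp (c * z) * f (φ z)) z := by
      intro z
      have h1 := ((hasDerivAt_exp_mul (c + β) z).const_mul (K * A / (c + β))).sub
        ((hasDerivAt_exp_mul c z).mul (hp' z))
      refine h1.congr_deriv ?_
      field_simp
      ring
    have hexp : ∀ z, Real.exp ((c + β) * z) = Real.exp (c * z) * Real.exp (β * z) := by
      intro z
      rw [← Real.exp_add]; congr 1; ring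
    have hm := monoOn_Iic (b := 0) (fun z _ => hg z) (fun z hz => by
      have h1 := (abs_le.1 (hf1 z)).2
      have h2 := hv z hz
      have h3 := Real.exp_pos (c * z)
      have h4 : f (φ z) ≤ K * A * Real.exp (β * z) := by nlinarith
      rw [hexp]
      nlinarith)
    have hlim : Tendsto (fun z => K * A / (c + β) * Real.exp ((c + β) * z) -
        Real.exp (c * z) * p z) atBot (𝓝 0) := by
      have h1 := tendsto_exp_mul_bdd (a := c + β) (M := |K * A / (c + β)|) (by positivity)
        (g := fun _ => K * A / (c + β)) (fun _ => le_rfl)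
      have h2 := tendsto_exp_mul_bdd (a := c) (M := K / c) hc (g := p) (fun z => by
        rw [abs_of_pos (hp0 z)]; exact hpK z)
      have h3 := h1.sub h2
      rw [sub_zero] at h3
      refine h3.congr fun z => ?_
      ring
    have h1 := nonneg_of_mono_bot hm hlim hz
    simp only [hexp] at h1
    have h2 : Real.exp (c * z) * p z ≤ Real.exp (c * z) * (K * A / (c + β) * Real.exp (β * z)) := by
      linarith
    exact le_of_mul_le_mul_left h2 (Real.exp_pos _)
  -- the constant
  set B1 : ℝ := K * A / (c + β) with hB1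
  have hB10 : 0 < B1 := by positivity
  have hKc : 0 < K / c := by positivity
  refine ⟨β, 1 + K / c + 2 * K + A + B1 + (c * B1 + K * A) + C0 + C1 + (c * C1 + K * C0), ?_⟩
  have hA0 : 0 < A := by linarith
  have q1 : 0 < c * B1 + K * A := by positivity
  have q2 : 0 < c * C1 + K * C0 := by positivity
  have hbig : ∀ x y w : ℝ, x ≤ y * w → 0 ≤ w →
      y ≤ 1 + K / c + 2 * K + A + B1 + (c * B1 + K * A) + C0 + C1 + (c * C1 + K * C0) →
      x ≤ (1 + K / c + 2 * K + A + B1 + (c * B1 + K * A) + C0 + C1 + (c * C1 + K * C0)) * w := by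
    intro x y w h1 h2 h3
    exact h1.trans (mul_le_mul_of_nonneg_right h3 h2)
  refine ⟨hpos, hlt, by linarith, hβ0, ?_, ?_, ?_, ?_, ?_, ?_, ?_, ?_⟩
  · intro z
    rw [habs1]
    have := hpK z
    linarith
  · intro z
    have h1 := habs2 z
    have h2 := hpK z
    have h3 := hfK z
    have h4 : c * p z ≤ K := by
      calc c * p z ≤ c * (K / c) := mul_le_mul_of_nonneg_left h2 hc.le
        _ = K := by field_simp
    linarith
  · intro z hz
    exact hbig _ _ _ (hv z hz) (Real.exp_pos _).le (by linarith)
  · intro z hz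
    rw [habs1]
    exact hbig _ _ _ (hpl z hz) (Real.exp_pos _).le (by linarith)
  · intro z hz
    refine hbig _ (c * B1 + K * A) _ ?_ (Real.exp_pos _).le (by linarith)
    have h1 := habs2 z
    have h2 := mul_le_mul_of_nonneg_left (hpl z hz) hc.le
    have h3 := mul_le_mul_of_nonneg_left (hv z hz) hK.le
    have h4 := hf1 z
    nlinarith
  · intro z hz
    have h1 := hC0 z
    rw [neg_mul] at h1
    exact hbig _ _ _ h1 (Real.exp_pos _).le (by linarith)
  · intro z hz
    rw [habs1]
    exact hbig _ _ _ (hpr z hz) (Real.exp_pos _).le (by linarith)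
  · intro z hz
    refine hbig _ (c * C1 + K * C0) _ ?_ (Real.exp_pos _).le (by linarith)
    have h1 := habs2 z
    have h2 := mul_le_mul_of_nonneg_left (hpr z hz) hc.le
    have h3 := hC0 z
    rw [neg_mul] at h3
    have h5 := mul_le_mul_of_nonneg_left h3 hK.le
    have h4 := hf0 z
    nlinarith

end Pool.Agent.H90.RD
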