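import Pool.Agent.H90.RD.Line

/-!
# Module MP0: the classical maximum principle
-/

open MeasureTheory Set Filter Topology Metric

namespace Pool.Agent.H90.RD

open Pool.Agent.H91.RD

variable {N : ℕ}

/-- the Laplacian of `ε (‖x‖² + b)` -/
theorem lap_norm_sq (ε b : ℝ) (x : E N) :
    Laplacian.laplacian (fun x : E N => ε * (‖x‖ ^ 2 + b)) x = 2 * N * ε := by
  have hg : ContDiff ℝ 2 (fun x : E N => ε * (‖x‖ ^ 2 + b)) :=
    contDiff_const.mul ((contDiff_id.norm_sq ℝ).add contDiff_const)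
  have key : ∀ v : E N, ‖v‖ = 1 → fderiv ℝ (fderiv ℝ (fun x : E N => ε * (‖x‖ ^ 2 + b))) x v v =
      2 * ε := by
    intro v hv
    have hform : ∀ t : ℝ, ε * (‖x + t • v‖ ^ 2 + b) =
        ε * (‖x‖ ^ 2 + 2 * t * inner ℝ x v + t ^ 2 + b) := by
      intro t
      rw [norm_add_sq_real, norm_smul, hv, inner_smul_right, Real.norm_eq_abs, mul_one, sq_abs]
      ring
    refine line_eq (p := fun t => ε * (2 * inner ℝ x v + 2 * t)) hg.contDiffAt ?_ ?_
    · intro t
      simp only [hform]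
      have h1 : HasDerivAt (fun t : ℝ => ‖x‖ ^ 2 + 2 * t * inner ℝ x v + t ^ 2 + b)
          (2 * inner ℝ x v + 2 * t) t := by
        have h2 := (((hasDerivAt_id t).const_mul 2).mul_const (inner ℝ x v)).const_add (‖x‖ ^ 2)
        have h3 := (h2.add ((hasDerivAt_id t).pow 2)).add_const b
        refine h3.congr_deriv ?_
        simp
      exact h1.const_mul ε
    · have h1 := (((hasDerivAt_id (0 : ℝ)).const_mul 2).const_add (2 * inner ℝ x v)).const_mul ε
      refine h1.congr_deriv ?_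
      ring
  rw [lap_eq_sum, Finset.sum_congr rfl fun i _ => key _ (by simp), Finset.sum_const,
    Finset.card_univ, Fintype.card_fin, nsmul_eq_mul]
  ring

/-- derivative at the right end of an interval where the minimum is attained -/
theorem deriv_le_zero_of_min {φ : ℝ → ℝ} {d a b : ℝ} (hab : a < b) (hd : HasDerivAt φ d b)
    (hmin : ∀ s ∈ Icc a b, φ b ≤ φ s) : d ≤ 0 := by
  have h1 : Tendsto (slope φ b) (𝓝[<] b) (𝓝 d) :=
    (hasDerivAt_iff_tendsto_slope.1 hd).mono_left (nhdsWithin_mono _ fun s hs => ne_of_lt hs)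
  refine le_of_tendsto h1 ?_
  have h2 : Ioo a b ∈ 𝓝[<] b := Ioo_mem_nhdsLT hab
  filter_upwards [h2] with s hs
  rw [slope_def_field]
  exact div_nonpos_of_nonneg_of_nonpos (sub_nonneg.2 (hmin s ⟨hs.1.le, hs.2.le⟩))
    (by linarith [hs.2])

theorem MP0 : T_MP0 := by
  intro N K t0 t1 B z hK h01 hcont hB hdiff h0 t ht x
  by_contra hneg
  push Not at hneg
  set L := K + 1 with hL
  -- the penalised function
  set ε : ℝ := Real.exp (-(L * (t - t0))) * (-z t x) / (2 * (‖x‖ ^ 2 + 2 * N * (t - t0) + 1)) with hε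
  have htt : 0 ≤ t - t0 := sub_nonneg.2 ht.1
  have hden : 0 < ‖x‖ ^ 2 + 2 * N * (t - t0) + 1 := by positivity
  have hε0 : 0 < ε := by
    rw [hε]
    have : 0 < -z t x := by linarith
    positivity
  set ζ : ℝ × E N → ℝ := fun p => Real.exp (-(L * (p.1 - t0))) * z p.1 p.2 +
    ε * (‖p.2‖ ^ 2 + 2 * N * (p.1 - t0)) with hζ
  have hζneg : ζ (t, x) < 0 := by
    have h1 : ε * (2 * (‖x‖ ^ 2 + 2 * N * (t - t0) + 1)) =
        Real.exp (-(L * (t - t0))) * (-z t x) := by
      rw [hε]; field_simp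
    have h2 : 0 < ε * (‖x‖ ^ 2 + 2 * N * (t - t0) + 1) := mul_pos hε0 hden
    simp only [hζ]
    nlinarith
  have hζc : ContinuousOn ζ (Icc t0 t1 ×ˢ univ) := by
    refine ContinuousOn.add (ContinuousOn.mul ?_ hcont) ?_
    · exact Continuous.continuousOn (by fun_prop)
    · exact Continuous.continuousOn (by fun_prop)
  -- lower bound
  have hlow : ∀ p ∈ Icc t0 t1 ×ˢ (univ : Set (E N)), -|B| + ε * ‖p.2‖ ^ 2 ≤ ζ p := by
    rintro ⟨s, y⟩ ⟨hs, -⟩
    have hs0 : 0 ≤ s - t0 := sub_nonneg.2 hs.1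
    have h1 : -|B| ≤ Real.exp (-(L * (s - t0))) * z s y := by
      have e1 : Real.exp (-(L * (s - t0))) ≤ 1 := by
        rw [Real.exp_le_one_iff]
        have : 0 ≤ L * (s - t0) := mul_nonneg (by linarith) hs0
        linarith
      have e0 := Real.exp_pos (-(L * (s - t0)))
      have hz : -|B| ≤ z s y := (neg_le_neg (le_abs_self B)).trans (hB s hs y)
      have hb := abs_nonneg B
      nlinarith
    have h2 : 0 ≤ ε * (2 * N * (s - t0)) := by positivity
    simp only [hζ]
    nlinarith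
  -- a compact set
  set R : ℝ := √(|B| / ε) + ‖x‖ + 1 with hR
  have hRx : ‖x‖ ≤ R := by have := Real.sqrt_nonneg (|B| / ε); linarith
  have hcomp : IsCompact (Icc t0 t1 ×ˢ closedBall (0 : E N) R) :=
    isCompact_Icc.prod (isCompact_closedBall _ _)
  have hmem : (t, x) ∈ Icc t0 t1 ×ˢ closedBall (0 : E N) R :=
    ⟨ht, by rw [mem_closedBall_zero_iff]; exact hRx⟩
  obtain ⟨⟨s, y⟩, hsy, hmin⟩ := hcomp.exists_isMinOn ⟨_, hmem⟩
    (hζc.mono (prod_mono le_rfl (subset_univ _)))
  have hs : s ∈ Icc t0 t1 := hsy.1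
  have hval : ζ (s, y) < 0 := (hmin hmem).trans_lt hζneg
  have hglob : ∀ s' ∈ Icc t0 t1, ∀ y', ζ (s, y) ≤ ζ (s', y') := by
    intro s' hs' y'
    by_cases hy : ‖y'‖ ≤ R
    · exact hmin ⟨hs', by rw [mem_closedBall_zero_iff]; exact hy⟩
    · push Not at hy
      have h1 := hlow (s', y') ⟨hs', mem_univ _⟩
      have h2 : |B| / ε ≤ ‖y'‖ ^ 2 := by
        have h3 : √(|B| / ε) ≤ ‖y'‖ := by
          have := norm_nonneg x
          linarith
        calc |B| / ε = √(|B| / ε) ^ 2 := (Real.sq_sqrt (by positivity)).symm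
          _ ≤ ‖y'‖ ^ 2 := by gcongr
      have h3 : |B| ≤ ε * ‖y'‖ ^ 2 := by
        rw [div_le_iff₀ hε0] at h2; linarith
      linarith
  -- the time of the minimum is positive
  have hs0 : t0 < s := by
    refine lt_of_le_of_ne hs.1 fun h => ?_
    have h1 := h0 y
    have h2 : 0 ≤ ζ (s, y) := by
      rw [← h]
      simp only [hζ, sub_self, mul_zero, neg_zero, Real.exp_zero, one_mul, add_zero]
      positivity
    linarith
  have hss : 0 ≤ s - t0 := by linarith
  have hE := Real.exp_pos (-(L * (s - t0)))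
  have hz : z s y < 0 := by
    by_contra h
    push Not at h
    have h2 : 0 ≤ ζ (s, y) := by
      simp only [hζ]
      positivity
    linarith
  obtain ⟨hc2, hdt, hineq⟩ := hdiff s ⟨hs0, hs.2⟩ y hz
  -- minimum in space
  have hspace : 0 ≤ Real.exp (-(L * (s - t0))) * Laplacian.laplacian (z s) y + 2 * N * ε := by
    have hc2' : ContDiffAt ℝ 2 (Real.exp (-(L * (s - t0))) • z s) y :=
      contDiffAt_const.smul hc2
    have hc3 : ContDiffAt ℝ 2 (fun x : E N => ε * (‖x‖ ^ 2 + 2 * N * (s - t0))) y :=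
      (contDiff_const.mul ((contDiff_id.norm_sq ℝ).add contDiff_const)).contDiffAt
    have h1 : 0 ≤ Laplacian.laplacian ((Real.exp (-(L * (s - t0))) • z s +
        fun x : E N => ε * (‖x‖ ^ 2 + 2 * N * (s - t0))) : E N → ℝ) y := by
      refine lap_nonneg (hc2'.add hc3) (Eventually.of_forall fun y' => ?_)
      have := hglob s hs y'
      simpa only [hζ, Pi.add_apply, Pi.smul_apply, smul_eq_mul] using this
    rw [hc2'.laplacian_add hc3, InnerProductSpace.laplacian_smul _ hc2, lap_norm_sq,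
      smul_eq_mul] at h1
    exact h1
  -- minimum in time
  have htime : Real.exp (-(L * (s - t0))) * (deriv (fun r => z r y) s - L * z s y) +
      2 * N * ε ≤ 0 := by
    refine deriv_le_zero_of_min (φ := fun r => ζ (r, y)) hs0 ?_
      fun r hr => hglob r ⟨hr.1, hr.2.trans hs.2⟩ y
    have e1 : HasDerivAt (fun r : ℝ => Real.exp (-(L * (r - t0))))
        (Real.exp (-(L * (s - t0))) * -L) s := by
      have e2 : HasDerivAt (fun r : ℝ => -(L * (r - t0))) (-L) s := by
        have := (((hasDerivAt_id s).sub_const t0).const_mul L).neg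
        exact this.congr_deriv (by ring)
      exact e2.exp
    have e3 := e1.mul hdt.hasDerivAt
    have e4 : HasDerivAt (fun r : ℝ => ε * (‖y‖ ^ 2 + 2 * N * (r - t0))) (ε * (2 * N)) s := by
      have := ((((hasDerivAt_id s).sub_const t0).const_mul (2 * (N : ℝ))).const_add
        (‖y‖ ^ 2)).const_mul ε
      simpa using this
    refine (e3.add e4).congr_deriv ?_
    ring
  have h1 : Real.exp (-(L * (s - t0))) * (deriv (fun r => z r y) s - L * z s y -
      Laplacian.laplacian (z s) y) ≤ 0 := by nlinarith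
  have h2 : deriv (fun r => z r y) s - L * z s y - Laplacian.laplacian (z s) y ≤ 0 := by
    by_contra h
    push Not at h
    have := mul_pos hE h
    linarith
  have h3 : K * z s y ≤ (K + 1) * z s y := by rw [← hL]; linarith
  linarith

end Pool.Agent.H90.RD
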