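import Pool.Agent.H90.RD.P2Core

/-!
# Module P2B: the super-barrier
-/

open MeasureTheory Set Filter Topology Metric

namespace Pool.Agent.H90.RD

open Pool.Agent.H91.RD

theorem hasDerivAt_ps (c z : ℝ) :
    HasDerivAt (ps c) (-(c / 2 * (ps c z * (1 - ps c z)))) z := by
  have h0 := Real.exp_pos (c / 2 * z)
  have h1 : HasDerivAt (fun z : ℝ => 1 + Real.exp (c / 2 * z)) (c / 2 * Real.exp (c / 2 * z)) z := by
    have h2 : HasDerivAt (fun z : ℝ => c / 2 * z) (c / 2) z := by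
      simpa using (hasDerivAt_id z).const_mul (c / 2)
    exact (h2.exp.const_add 1).congr_deriv (by ring)
  have h3 : HasDerivAt (fun z : ℝ => (1 + Real.exp (c / 2 * z))⁻¹) _ z :=
    h1.fun_inv (by positivity)
  refine HasDerivAt.congr_deriv (f' := _) (show HasDerivAt (ps c) _ z from h3) ?_
  unfold ps
  field_simp
  ring

theorem hasDerivAt_ps2 (c z : ℝ) :
    HasDerivAt (fun z => -(c / 2 * (ps c z * (1 - ps c z))))
      (c ^ 2 / 4 * (ps c z * (1 - ps c z) * (1 - 2 * ps c z))) z := by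
  have h1 := hasDerivAt_ps c z
  have h2 := ((h1.mul (h1.const_sub 1)).const_mul (c / 2)).neg
  refine h2.congr_deriv ?_
  ring

theorem contDiff_ps (c : ℝ) : ContDiff ℝ 2 (ps c) := by
  unfold ps
  refine ContDiff.inv ?_ fun z => ?_
  · fun_prop
  · have := Real.exp_pos (c / 2 * z)
    positivity

theorem continuous_ps (c : ℝ) : Continuous (ps c) := (contDiff_ps c).continuous

/-- `y(τ)` -/
noncomputable def yy (c ρ0 τ : ℝ) : ℝ := ρ0 - c * τ

/-- `ρ(τ)` -/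
noncomputable def rr (c B ρ0 τ : ℝ) : ℝ := yy c ρ0 τ - B * (√ρ0 - √(yy c ρ0 τ))

/-- the barrier -/
noncomputable def Sf (φ : ℝ → ℝ) (c B ρ0 τ r : ℝ) : ℝ :=
  φ (rr c B ρ0 τ - r) + 1 / √(yy c ρ0 τ) * ps c (rr c B ρ0 τ - r)

section

variable {φ : ℝ → ℝ} {c B ρ0 : ℝ}

theorem hasDerivAt_yy (τ : ℝ) : HasDerivAt (yy c ρ0) (-c) τ := by
  have := ((hasDerivAt_id τ).const_mul c).const_sub ρ0
  exact this.congr_deriv (by ring)

theorem hasDerivAt_sqrt_yy {τ : ℝ} (h : 0 < yy c ρ0 τ) :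
    HasDerivAt (fun τ => √(yy c ρ0 τ)) (-c / (2 * √(yy c ρ0 τ))) τ :=
  (hasDerivAt_yy τ).sqrt h.ne'

theorem hasDerivAt_rr {τ : ℝ} (h : 0 < yy c ρ0 τ) :
    HasDerivAt (rr c B ρ0) (-c - c * B / (2 * √(yy c ρ0 τ))) τ := by
  have h1 := (hasDerivAt_yy (c := c) (ρ0 := ρ0) τ).sub
    (((hasDerivAt_sqrt_yy h).const_sub (√ρ0)).const_mul B)
  refine h1.congr_deriv ?_
  ring

theorem hasDerivAt_Sf_tau (hφ : ContDiff ℝ 2 φ) {τ : ℝ} (h : 0 < yy c ρ0 τ) (r : ℝ) :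
    HasDerivAt (fun s => Sf φ c B ρ0 s r)
      (deriv φ (rr c B ρ0 τ - r) * (-c - c * B / (2 * √(yy c ρ0 τ))) +
        (c / (2 * √(yy c ρ0 τ)) / √(yy c ρ0 τ) ^ 2 * ps c (rr c B ρ0 τ - r) +
        1 / √(yy c ρ0 τ) * (-(c / 2 * (ps c (rr c B ρ0 τ - r) * (1 - ps c (rr c B ρ0 τ - r)))) *
          (-c - c * B / (2 * √(yy c ρ0 τ)))))) τ := by
  have d1 : ∀ z, HasDerivAt φ (deriv φ z) z := fun z =>
    (hφ.differentiable (by norm_num)).differentiableAt.hasDerivAt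
  have hz : HasDerivAt (fun s => rr c B ρ0 s - r) (-c - c * B / (2 * √(yy c ρ0 τ))) τ :=
    (hasDerivAt_rr h).sub_const r
  have h1 := (d1 (rr c B ρ0 τ - r)).comp τ hz
  have h2 := (hasDerivAt_ps c (rr c B ρ0 τ - r)).comp τ hz
  have hs : 0 < √(yy c ρ0 τ) := Real.sqrt_pos.2 h
  have h3 : HasDerivAt (fun s => 1 / √(yy c ρ0 s)) (c / (2 * √(yy c ρ0 τ)) / √(yy c ρ0 τ) ^ 2) τ := by
    have h4 := (hasDerivAt_sqrt_yy h).fun_inv hs.ne'
    simp only [one_div]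
    refine h4.congr_deriv ?_
    ring
  exact h1.add (h3.mul h2)

theorem deriv_Sf (hφ : ContDiff ℝ 2 φ) (τ : ℝ) :
    deriv (Sf φ c B ρ0 τ) = fun r => -deriv φ (rr c B ρ0 τ - r) + 1 / √(yy c ρ0 τ) *
      (c / 2 * (ps c (rr c B ρ0 τ - r) * (1 - ps c (rr c B ρ0 τ - r)))) := by
  funext r
  have d1 : ∀ z, HasDerivAt φ (deriv φ z) z := fun z =>
    (hφ.differentiable (by norm_num)).differentiableAt.hasDerivAt
  have hz : HasDerivAt (fun r => rr c B ρ0 τ - r) (-1) r := (hasDerivAt_id r).const_sub _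
  have h1 := (d1 (rr c B ρ0 τ - r)).comp r hz
  have h2 := ((hasDerivAt_ps c (rr c B ρ0 τ - r)).comp r hz).const_mul (1 / √(yy c ρ0 τ))
  have h3 : HasDerivAt (Sf φ c B ρ0 τ) _ r := h1.add h2
  rw [h3.deriv]
  ring

theorem deriv2_Sf (hφ : ContDiff ℝ 2 φ) (τ r : ℝ) :
    deriv (deriv (Sf φ c B ρ0 τ)) r = deriv (deriv φ) (rr c B ρ0 τ - r) + 1 / √(yy c ρ0 τ) *
      (c ^ 2 / 4 * (ps c (rr c B ρ0 τ - r) * (1 - ps c (rr c B ρ0 τ - r)) *
        (1 - 2 * ps c (rr c B ρ0 τ - r)))) := by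
  rw [deriv_Sf hφ]
  have hC1 : ContDiff ℝ 1 (deriv φ) := by
    have : ContDiff ℝ (1 + 1) φ := by rw [one_add_one_eq_two]; exact hφ
    exact (contDiff_succ_iff_deriv.1 this).2.2
  have d2 : ∀ z, HasDerivAt (deriv φ) (deriv (deriv φ) z) z := fun z =>
    (hC1.differentiable (by norm_num)).differentiableAt.hasDerivAt
  have hz : HasDerivAt (fun r => rr c B ρ0 τ - r) (-1) r := (hasDerivAt_id r).const_sub _
  have h1 := ((d2 (rr c B ρ0 τ - r)).comp r hz).neg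
  have h2 := (((hasDerivAt_ps2 c (rr c B ρ0 τ - r)).neg).comp r hz).const_mul (1 / √(yy c ρ0 τ))
  have h3 := h1.add h2
  have h4 : HasDerivAt (fun r => -deriv φ (rr c B ρ0 τ - r) + 1 / √(yy c ρ0 τ) *
      (c / 2 * (ps c (rr c B ρ0 τ - r) * (1 - ps c (rr c B ρ0 τ - r)))))
      (deriv (deriv φ) (rr c B ρ0 τ - r) + 1 / √(yy c ρ0 τ) *
      (c ^ 2 / 4 * (ps c (rr c B ρ0 τ - r) * (1 - ps c (rr c B ρ0 τ - r)) *
        (1 - 2 * ps c (rr c B ρ0 τ - r))))) r := by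
    refine (h3.congr_of_eventuallyEq (Eventually.of_forall fun s => ?_)).congr_deriv ?_
    · simp only [Pi.add_apply, Pi.neg_apply, Function.comp]
      ring
    · ring
  rw [h4.deriv]

theorem contDiff_Sf (hφ : ContDiff ℝ 2 φ) (τ : ℝ) : ContDiff ℝ 2 (Sf φ c B ρ0 τ) := by
  have hz : ContDiff ℝ 2 (fun r : ℝ => rr c B ρ0 τ - r) := contDiff_const.sub contDiff_id
  exact (hφ.comp hz).add (contDiff_const.mul ((contDiff_ps c).comp hz))

theorem continuousOn_Sf (hφ : ContDiff ℝ 2 φ) {σ : ℝ} (h : ∀ τ ∈ Icc 0 σ, 0 < yy c ρ0 τ) :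
    ContinuousOn (fun p : ℝ × ℝ => Sf φ c B ρ0 p.1 p.2) (Icc 0 σ ×ˢ univ) := by
  have hy : Continuous (yy c ρ0) := by unfold yy; fun_prop
  have hr : Continuous (rr c B ρ0) := by
    unfold rr
    exact hy.sub (continuous_const.mul (continuous_const.sub hy.sqrt))
  have hz : Continuous (fun p : ℝ × ℝ => rr c B ρ0 p.1 - p.2) :=
    (hr.comp continuous_fst).sub continuous_snd
  have h1 : Continuous (fun p : ℝ × ℝ => φ (rr c B ρ0 p.1 - p.2)) := hφ.continuous.comp hz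
  have h2 : Continuous (fun p : ℝ × ℝ => ps c (rr c B ρ0 p.1 - p.2)) := (continuous_ps c).comp hz
  have h3 : ContinuousOn (fun p : ℝ × ℝ => 1 / √(yy c ρ0 p.1)) (Icc 0 σ ×ˢ univ) := by
    refine ContinuousOn.div continuousOn_const ?_ ?_
    · exact ((hy.comp continuous_fst).sqrt).continuousOn
    · rintro ⟨s, r⟩ ⟨hs, -⟩
      exact (Real.sqrt_pos.2 (h s hs)).ne'
  exact h1.continuousOn.add (h3.mul h2.continuousOn)

end

/-- the differential inequality -/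
theorem super_ineq (N : ℕ) {f φ : ℝ → ℝ} {c lam K k μ η0 θ β C : ℝ} (hN : 1 ≤ N)
    (H : Hyp f c lam φ K k μ η0 θ) (F : FrP c lam β C φ) {a z0 κ ρ0 τ r : ℝ} (ha1 : 1 ≤ a)
    (haN : (N : ℝ) ≤ a) (haε : c * N / (2 * a) ≤ (c ^ 2 / 4 - k) / 2 / 4) (hz0 : 0 < z0)
    (h1 : φ z0 ≤ η0 / 2) (h2 : 1 - η0 / 2 ≤ φ (-z0))
    (h3 : c ^ 2 / 4 * ps c z0 ≤ (c ^ 2 / 4 - k) / 2 / 2) (hκ : 0 < κ)
    (hκ' : ∀ z ∈ Icc (-z0) z0, κ ≤ -deriv φ z)
    (hy : 1 ≤ yy c ρ0 τ) (Y1 : 2 / η0 ≤ √(yy c ρ0 τ))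
    (Y2 : 4 * C * (2 * N + 4 * a ^ 2) / ((c ^ 2 / 4 - k) / 2) ≤ √(yy c ρ0 τ))
    (Y3 : C * (N + 1) * Real.exp (-((lam - c / 2) * (yy c ρ0 τ / 4))) ≤
      (c ^ 2 / 4 - k) / 2 / (2 * √(yy c ρ0 τ)))
    (Y4 : 2 * c * N / μ ≤ yy c ρ0 τ) (Y5 : 8 * C * (N + a ^ 2) / μ ≤ √(yy c ρ0 τ))
    (Y6 : 4 * z0 ≤ yy c ρ0 τ)
    (Y7 : 4 * C * (N + a ^ 2) / (K + c ^ 2 / 4 + c) ≤ √(yy c ρ0 τ))
    (hρ : yy c ρ0 τ / 2 ≤ rr c (4 * (K + c ^ 2 / 4 + c) / (κ * c)) ρ0 τ) (hr : a ≤ r)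
    (hS : Sf φ c (4 * (K + c ^ 2 / 4 + c) / (κ * c)) ρ0 τ r < 1) :
    radL N a (Sf φ c (4 * (K + c ^ 2 / 4 + c) / (κ * c)) ρ0 τ) r +
      f (Sf φ c (4 * (K + c ^ 2 / 4 + c) / (κ * c)) ρ0 τ r) ≤
      deriv (fun s => Sf φ c (4 * (K + c ^ 2 / 4 + c) / (κ * c)) ρ0 s r) τ := by
  have hc : 0 < c := H.front.cpos
  have hK : 0 < K := H.toLip.K0
  have hy0 : 0 < yy c ρ0 τ := by linarith
  have hmain := core N hN H F ha1 haN haε hz0 h1 h2 h3 hκ hκ' hy Y1 Y2 Y3 Y4 Y5 Y6 Y7 hρ hr hS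
  rw [(hasDerivAt_Sf_tau H.front.c2 hy0 r).deriv, radL, deriv2_Sf H.front.c2, deriv_Sf H.front.c2]
  have hode := H.front.eqn (rr c (4 * (K + c ^ 2 / 4 + c) / (κ * c)) ρ0 τ - r)
  simp only [Sf]
  set M := K + c ^ 2 / 4 + c with hM
  have hM0 : 0 < M := by positivity
  set B := 4 * M / (κ * c) with hB
  have hB0 : 0 < B := by positivity
  set s := √(yy c ρ0 τ) with hs
  have hs0 : 0 < s := Real.sqrt_pos.2 hy0
  set z := rr c B ρ0 τ - r with hz
  set p := ps c z with hp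
  have hp0 : 0 < p := ps_pos c z
  have hp1 : p < 1 := ps_lt_one c z
  have hr1 : 1 ≤ r := ha1.trans hr
  have hr0 : 0 < r := by linarith
  have hN1 : (1 : ℝ) ≤ N := by exact_mod_cast hN
  set α := a ^ 2 / r ^ 2 with hα
  have hα0 : 0 ≤ α := by positivity
  set A := (N - 1) / r + a ^ 2 / r ^ 3 with hA
  have hA0 : 0 ≤ A := by
    have : (0 : ℝ) ≤ N - 1 := by linarith
    positivity
  set φ1 := deriv φ z with hφ1
  set φ2 := deriv (deriv φ) z with hφ2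
  set F0 := f (φ z) with hF0
  set F1 := f (φ z + 1 / s * p) with hF1
  have e1 : -(|φ2| * α) ≤ φ2 * α := by
    have := mul_le_mul_of_nonneg_right (neg_abs_le φ2) hα0
    linarith
  have e2 : -(|φ1| * A) ≤ φ1 * A := by
    have := mul_le_mul_of_nonneg_right (neg_abs_le φ1) hA0
    linarith
  have e3 : 0 ≤ c / (2 * s) / s ^ 2 * p := by positivity
  have hG0 : 0 ≤ p * (1 - p) := mul_nonneg hp0.le (by linarith)
  have e4 : 0 ≤ 1 / s * (c / 2 * (p * (1 - p))) * (c * B / (2 * s)) := by positivity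
  have e5 : 2 * M / (κ * s) = c * B / (2 * s) := by
    rw [hB]; field_simp; ring
  rw [e5] at hmain
  have hode' : φ2 = -(c * φ1) - F0 := by linarith
  -- an identity
  have key : (φ1 * (-c - c * B / (2 * s)) + (c / (2 * s) / s ^ 2 * p +
      1 / s * (-(c / 2 * (p * (1 - p))) * (-c - c * B / (2 * s))))) -
      ((φ2 + 1 / s * (c ^ 2 / 4 * (p * (1 - p) * (1 - 2 * p)))) * (1 - α) +
        (-φ1 + 1 / s * (c / 2 * (p * (1 - p)))) * A + F1) =
      (c * B / (2 * s) * (-φ1) + (F0 - F1) - |φ2| * α - |φ1| * A +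
      1 / s * (c ^ 2 / 2 * (p * (1 - p)) -
        c ^ 2 / 4 * (p * (1 - p) * (1 - 2 * p)) * (1 - α) -
        c / 2 * (p * (1 - p)) * A)) + (φ2 * α + |φ2| * α) + (φ1 * A + |φ1| * A) +
        c / (2 * s) / s ^ 2 * p + 1 / s * (c / 2 * (p * (1 - p))) * (c * B / (2 * s)) +
        (-(φ2 + c * φ1 + F0)) := by ring
  have hode0 : φ2 + c * φ1 + F0 = 0 := by linarith
  rw [hode0] at key
  linarith

/-- the initial inequality -/
theorem initial_ineq {f φ : ℝ → ℝ} {c lam K k μ η0 θ β C CT R ρ0 r : ℝ}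
    (H : Hyp f c lam φ K k μ η0 θ) (F : FrP c lam β C φ) (hCT : 1 ≤ CT) (hρ0 : 1 ≤ ρ0)
    (hR : 2 * CT * √ρ0 + c / 2 * (2 * C * √ρ0 / β) ≤ c / 2 * (R - ρ0)) :
    min 1 (CT * Real.exp (-(c / 2 * (R - r)))) ≤ φ (ρ0 - r) + 1 / √ρ0 * ps c (ρ0 - r) := by
  have hc : 0 < c := H.front.cpos
  have hβ := F.b0
  have hC := F.one
  set s := √ρ0 with hs
  have hs1 : 1 ≤ s := Real.one_le_sqrt.2 hρ0
  have hs0 : 0 < s := by linarith
  set z := ρ0 - r with hz
  have hφ0 := F.pos z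
  have hp0 := ps_pos c z
  -- exponentials against linear functions
  have hexp : ∀ x : ℝ, 0 < x → Real.exp (-x) ≤ 1 / x := by
    intro x hx
    rw [Real.exp_neg, ← one_div]
    have h1 := Real.add_one_le_exp x
    exact one_div_le_one_div_of_le hx (by linarith)
  set Z1 := 2 * C * s / β with hZ1
  have hZ10 : 0 < Z1 := by positivity
  have hCT' : CT * Real.exp (-(c / 2 * (R - ρ0)) + c / 2 * Z1) ≤ 1 / (2 * s) := by
    have h1 : Real.exp (-(c / 2 * (R - ρ0)) + c / 2 * Z1) ≤ Real.exp (-(2 * CT * s)) :=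
      Real.exp_le_exp.2 (by linarith)
    have h2 := hexp (2 * CT * s) (by positivity)
    calc CT * Real.exp (-(c / 2 * (R - ρ0)) + c / 2 * Z1) ≤ CT * (1 / (2 * CT * s)) := by
          gcongr; exact h1.trans h2
      _ = 1 / (2 * s) := by field_simp
  rcases le_total 0 z with hz0 | hz0
  · refine (min_le_right _ _).trans ?_
    have h1 := ps_ge hc hz0
    have h2 : Real.exp (-(c / 2 * (R - r))) = Real.exp (-(c / 2 * (R - ρ0))) *
        Real.exp (-(c / 2 * z)) := by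
      rw [← Real.exp_add]; congr 1; rw [hz]; ring
    have h3 : CT * Real.exp (-(c / 2 * (R - ρ0))) ≤ 1 / (2 * s) := by
      refine le_trans ?_ hCT'
      gcongr
      have : 0 < c / 2 * Z1 := by positivity
      linarith
    calc CT * Real.exp (-(c / 2 * (R - r))) = CT * Real.exp (-(c / 2 * (R - ρ0))) *
          Real.exp (-(c / 2 * z)) := by rw [h2]; ring
      _ ≤ 1 / (2 * s) * Real.exp (-(c / 2 * z)) := by gcongr
      _ = 1 / s * (1 / 2 * Real.exp (-(c / 2 * z))) := by field_simp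
      _ ≤ 1 / s * ps c z := by gcongr
      _ ≤ _ := by linarith
  · have hp2 := ps_ge_half hc hz0
    have hq : 1 / (2 * s) ≤ 1 / s * ps c z := by
      calc 1 / (2 * s) = 1 / s * (1 / 2) := by field_simp
        _ ≤ _ := by gcongr
    rcases le_total (-Z1) z with hzz | hzz
    · refine (min_le_right _ _).trans ?_
      have h2 : Real.exp (-(c / 2 * (R - r))) ≤ Real.exp (-(c / 2 * (R - ρ0)) + c / 2 * Z1) := by
        refine Real.exp_le_exp.2 ?_
        have : c / 2 * (-z) ≤ c / 2 * Z1 := by gcongr; linarith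
        have e : R - r = R - ρ0 + z := by rw [hz]; ring
        rw [e]
        linarith
      calc CT * Real.exp (-(c / 2 * (R - r))) ≤
          CT * Real.exp (-(c / 2 * (R - ρ0)) + c / 2 * Z1) := by gcongr
        _ ≤ 1 / (2 * s) := hCT'
        _ ≤ 1 / s * ps c z := hq
        _ ≤ _ := by linarith
    · refine (min_le_left _ _).trans ?_
      have h1 := F.n0 z hz0
      have h2 : Real.exp (β * z) ≤ Real.exp (-(2 * C * s)) := by
        refine Real.exp_le_exp.2 ?_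
        have e : β * Z1 = 2 * C * s := by rw [hZ1]; field_simp
        have : β * z ≤ β * (-Z1) := by gcongr
        linarith
      have h3 := hexp (2 * C * s) (by positivity)
      have h4 : C * Real.exp (β * z) ≤ 1 / (2 * s) := by
        calc C * Real.exp (β * z) ≤ C * (1 / (2 * C * s)) := by gcongr; exact h2.trans h3
          _ = 1 / (2 * s) := by field_simp
      linarith

theorem P2B : T_P2B := by
  intro N f φ c lam K k μ η0 θ β C hN H F CT η' hCT hη'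
  have hc : 0 < c := H.front.cpos
  have hK : 0 < K := H.toLip.K0
  have hμ := H.mu0
  have hη := H.eta0
  have hC : 1 ≤ C := F.one
  have hβ := F.b0
  have hlam : 0 < lam := by have := H.front.fast; linarith
  have hN1 : (1 : ℝ) ≤ N := by exact_mod_cast hN
  set ε1 := (c ^ 2 / 4 - k) / 2 with hε1
  have hε : 0 < ε1 := by have := H.kc; rw [hε1]; linarith
  set M := K + c ^ 2 / 4 + c with hM
  have hM0 : 0 < M := by positivity
  -- the constant `a`
  set a : ℝ := N + 2 * c * N / ε1 + 1 with ha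
  have hx : 0 ≤ 2 * c * N / ε1 := by positivity
  have ha1 : 1 ≤ a := by linarith
  have haN : (N : ℝ) ≤ a := by linarith
  have haε : c * N / (2 * a) ≤ ε1 / 4 := by
    have h1 : 2 * c * N / ε1 ≤ a := by linarith
    rw [div_le_iff₀ hε] at h1
    rw [div_le_div_iff₀ (by positivity) (by norm_num)]
    linarith
  -- the constant `z0`
  have hps0 : Tendsto (fun z => c ^ 2 / 4 * ps c z) atTop (𝓝 0) := by
    have h1 : Tendsto (fun z : ℝ => Real.exp (-(c / 2 * z))) atTop (𝓝 0) :=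
      Real.tendsto_exp_neg_atTop_nhds_zero.comp (tendsto_id.const_mul_atTop (by positivity))
    have h2 : Tendsto (ps c) atTop (𝓝 0) :=
      squeeze_zero (fun z => (ps_pos c z).le) (fun z => ps_le_exp) h1
    simpa using h2.const_mul (c ^ 2 / 4)
  obtain ⟨z0, hz0, h1, h2, h3⟩ : ∃ z0, 0 < z0 ∧ φ z0 ≤ η0 / 2 ∧ 1 - η0 / 2 ≤ φ (-z0) ∧
      c ^ 2 / 4 * ps c z0 ≤ ε1 / 2 := by
    have e1 : ∀ᶠ z : ℝ in atTop, 0 < z := eventually_gt_atTop 0
    have e2 : ∀ᶠ z : ℝ in atTop, φ z < η0 / 2 := H.front.right.eventually (gt_mem_nhds (by linarith))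
    have e3 : ∀ᶠ z : ℝ in atTop, 1 - η0 / 2 < φ (-z) :=
      (H.front.left.comp tendsto_neg_atTop_atBot).eventually (lt_mem_nhds (by linarith))
    have e4 : ∀ᶠ z : ℝ in atTop, c ^ 2 / 4 * ps c z < ε1 / 2 :=
      hps0.eventually (gt_mem_nhds (by linarith))
    obtain ⟨z0, h⟩ := (e1.and (e2.and (e3.and e4))).exists
    exact ⟨z0, h.1, h.2.1.le, h.2.2.1.le, h.2.2.2.le⟩
  -- the constant `κ`
  have hC1 : Continuous (deriv φ) := by
    have : ContDiff ℝ (1 + 1) φ := by rw [one_add_one_eq_two]; exact H.front.c2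
    exact (contDiff_succ_iff_deriv.1 this).2.2.continuous
  obtain ⟨zm, hzm, hmin⟩ := (isCompact_Icc (a := -z0) (b := z0)).exists_isMinOn
    ⟨0, by constructor <;> linarith⟩ hC1.neg.continuousOn
  set κ := -deriv φ zm with hκd
  have hκ : 0 < κ := by have := H.front.dec zm; linarith
  have hκ' : ∀ z ∈ Icc (-z0) z0, κ ≤ -deriv φ z := fun z hz => hmin hz
  set B := 4 * M / (κ * c) with hB
  have hB0 : 0 < B := by positivity
  -- the constant `ymin`
  have hsq : ∀ X : ℝ, ∀ᶠ y : ℝ in atTop, X ≤ √y := fun X =>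
    Real.tendsto_sqrt_atTop.eventually_ge_atTop X
  have hid : ∀ X : ℝ, ∀ᶠ y : ℝ in atTop, X ≤ y := fun X => eventually_ge_atTop X
  have hdl : 0 < lam - c / 2 := by have := H.front.fast; linarith
  have hY3 : ∀ᶠ y : ℝ in atTop, C * (N + 1) * Real.exp (-((lam - c / 2) * (y / 4))) ≤
      ε1 / (2 * √y) := by
    set D : ℝ := (lam - c / 2) / 8 with hD
    have hD0 : 0 < D := by positivity
    filter_upwards [hid 1, hid (2 * (C * (N + 1)) / (D ^ 2 * ε1))] with y hy1 hy2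
    have hy0 : 0 < y := by linarith
    have e1 : Real.exp (-((lam - c / 2) * (y / 4))) ≤ 1 / (D * y) ^ 2 := by
      have e2 : (lam - c / 2) * (y / 4) = D * y + D * y := by rw [hD]; ring
      rw [e2, Real.exp_neg, Real.exp_add, ← one_div, sq]
      have e3 : D * y ≤ Real.exp (D * y) := by
        have := Real.add_one_le_exp (D * y); linarith
      have e4 : 0 < D * y := by positivity
      gcongr
    have e5 : √y ≤ y := by
      rw [Real.sqrt_le_left hy0.le]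
      nlinarith
    have hsy : 0 < √y := Real.sqrt_pos.2 hy0
    rw [div_le_iff₀ (by positivity)] at hy2
    calc C * (N + 1) * Real.exp (-((lam - c / 2) * (y / 4))) ≤ C * (N + 1) * (1 / (D * y) ^ 2) := by
          gcongr
      _ = (2 * (C * (N + 1))) / (2 * (D ^ 2 * y ^ 2)) := by field_simp
      _ ≤ (y * (D ^ 2 * ε1)) / (2 * (D ^ 2 * y ^ 2)) := by gcongr
      _ = ε1 / (2 * y) := by field_simp
      _ ≤ ε1 / (2 * √y) := by gcongr
  have hfin : ∀ᶠ y : ℝ in atTop, C * Real.exp (-(lam * (y / 2 - a))) ≤ η' / 2 := by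
    have e1 : Tendsto (fun y : ℝ => lam * (y / 2 - a)) atTop atTop := by
      refine Tendsto.const_mul_atTop hlam ?_
      exact tendsto_atTop_add_const_right _ _ (tendsto_id.atTop_div_const (by norm_num))
    have e2 : Tendsto (fun y : ℝ => C * Real.exp (-(lam * (y / 2 - a)))) atTop (𝓝 0) := by
      simpa using (Real.tendsto_exp_neg_atTop_nhds_zero.comp e1).const_mul C
    exact (e2.eventually (gt_mem_nhds (show (0 : ℝ) < η' / 2 by linarith))).mono fun y h => h.le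
  obtain ⟨ymin, hymin⟩ := eventually_atTop.1 ((hid 1).and ((hsq (2 / η0)).and
    ((hsq (4 * C * (2 * N + 4 * a ^ 2) / ε1)).and (hY3.and ((hid (2 * c * N / μ)).and
    ((hsq (8 * C * (N + a ^ 2) / μ)).and ((hid (4 * z0)).and
    ((hsq (4 * C * (N + a ^ 2) / M)).and ((hid (2 * a)).and (hfin.and
    (hsq (2 / η'))))))))))))
  -- `K6` and `K5`
  set L : ℝ := 2 * B + √c + √|ymin| + 1 with hL
  have hsc : 0 < √c := Real.sqrt_pos.2 hc
  have hscc : √c * √c = c := Real.mul_self_sqrt hc.le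
  have hym0 : 0 ≤ √|ymin| := Real.sqrt_nonneg _
  have hL1 : 1 ≤ L := by linarith
  have hLy : ymin ≤ L ^ 2 := by
    calc ymin ≤ |ymin| := le_abs_self _
      _ = √|ymin| ^ 2 := (Real.sq_sqrt (abs_nonneg _)).symm
      _ ≤ L ^ 2 := by gcongr; linarith
  have hLB : 2 * B * (√c + L) ≤ L ^ 2 := by
    have e1 : √c ≤ L - 2 * B := by linarith
    have e2 : 2 * B ≤ L := by linarith
    have e3 : 2 * B * √c ≤ L * (L - 2 * B) := mul_le_mul e2 e1 hsc.le (by linarith)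
    nlinarith
  set K7 : ℝ := 2 / c * (2 * CT + c * C / β) * (√c + L) with hK7
  have hK70 : 0 < K7 := by positivity
  refine ⟨a, L ^ 2 + K7, ha1, by nlinarith, ?_⟩
  intro σ hσ R hR
  set w := 1 + √σ with hw
  have hsσ : 0 < √σ := Real.sqrt_pos.2 hσ
  have hw1 : 1 ≤ w := by linarith
  have hσw : σ ≤ w ^ 2 := by
    have : √σ ^ 2 = σ := Real.sq_sqrt hσ.le
    rw [hw]; nlinarith
  set ρ0 : ℝ := c * σ + L ^ 2 * w with hρ0
  have hρ01 : 1 ≤ ρ0 := by
    have : 0 < c * σ := by positivity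
    have h5 : 1 ≤ L ^ 2 * w := by nlinarith
    linarith
  have hsρ : √ρ0 ≤ (√c + L) * w := by
    rw [Real.sqrt_le_left (by positivity)]
    have e1 : c * σ ≤ c * w ^ 2 := by gcongr
    have e2 : L ^ 2 * w ≤ L ^ 2 * w ^ 2 := by
      gcongr
      nlinarith
    have e3 : 0 ≤ √c * L * w ^ 2 := by positivity
    have e4 : ((√c + L) * w) ^ 2 = c * w ^ 2 + 2 * (√c * L * w ^ 2) + L ^ 2 * w ^ 2 := by
      rw [mul_pow, add_sq]
      have : √c ^ 2 = c := Real.sq_sqrt hc.le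
      rw [this]; ring
    rw [e4]
    linarith
  have hy : ∀ τ ∈ Icc 0 σ, L ^ 2 * w ≤ yy c ρ0 τ := by
    intro τ hτ
    have : c * τ ≤ c * σ := by gcongr; exact hτ.2
    unfold yy
    linarith
  have hLw : L ^ 2 ≤ L ^ 2 * w := le_mul_of_one_le_right (by positivity) hw1
  have hyg : ∀ τ ∈ Icc 0 σ, ymin ≤ yy c ρ0 τ := fun τ hτ => hLy.trans (hLw.trans (hy τ hτ))
  have hyp : ∀ τ ∈ Icc 0 σ, 0 < yy c ρ0 τ := fun τ hτ => by
    have := (hymin _ (hyg τ hτ)).1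
    linarith
  have hrho : ∀ τ ∈ Icc 0 σ, yy c ρ0 τ / 2 ≤ rr c B ρ0 τ := by
    intro τ hτ
    have e1 : 2 * B * √ρ0 ≤ yy c ρ0 τ := by
      calc 2 * B * √ρ0 ≤ 2 * B * ((√c + L) * w) := by gcongr
        _ = 2 * B * (√c + L) * w := by ring
        _ ≤ L ^ 2 * w := by gcongr
        _ ≤ _ := hy τ hτ
    have e2 : 0 ≤ B * √(yy c ρ0 τ) := by positivity
    unfold rr
    linarith
  refine ⟨Sf φ c B ρ0, continuousOn_Sf H.front.c2 hyp, fun τ _ => contDiff_Sf H.front.c2 τ,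
    fun τ hτ r => (hasDerivAt_Sf_tau H.front.c2 (hyp τ hτ) r).differentiableAt, ?_, ?_, ?_, ?_⟩
  · intro τ hτ r
    have e1 := F.pos (rr c B ρ0 τ - r)
    have e2 := ps_pos c (rr c B ρ0 τ - r)
    have e3 : 0 ≤ 1 / √(yy c ρ0 τ) := by positivity
    unfold Sf
    positivity
  · intro τ hτ r hr hS
    obtain ⟨y1, Y1, Y2, Y3, Y4, Y5, Y6, Y7, -, -, -⟩ := hymin _ (hyg τ hτ)
    exact super_ineq N hN H F ha1 haN haε hz0 h1 h2 h3 hκ hκ' y1 Y1 Y2 Y3 Y4 Y5 Y6 Y7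
      (hrho τ hτ) hr hS
  · intro r
    have e0 : yy c ρ0 0 = ρ0 := by unfold yy; ring
    have e1 : rr c B ρ0 0 = ρ0 := by unfold rr; rw [e0]; ring
    unfold Sf
    rw [e0, e1]
    refine initial_ineq H F hCT hρ01 ?_
    have e2 : K7 * w ≤ R - ρ0 := by
      rw [hρ0]; linarith
    have e3 : 2 * CT * √ρ0 + c / 2 * (2 * C * √ρ0 / β) = (2 * CT + c * C / β) * √ρ0 := by
      field_simp
    rw [e3]
    calc (2 * CT + c * C / β) * √ρ0 ≤ (2 * CT + c * C / β) * ((√c + L) * w) := by gcongr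
      _ = c / 2 * (K7 * w) := by rw [hK7]; field_simp
      _ ≤ c / 2 * (R - ρ0) := by gcongr
  · have hτ : σ ∈ Icc 0 σ := ⟨hσ.le, le_rfl⟩
    obtain ⟨y1, -, -, -, -, -, -, -, Y8, -, Y10⟩ := hymin _ (hyg σ hτ)
    obtain ⟨-, -, -, -, -, -, -, -, -, Y9, -⟩ := hymin _ (hyg σ hτ)
    have hz : yy c ρ0 σ / 2 - a ≤ rr c B ρ0 σ - a := by linarith [hrho σ hτ]
    have hz0' : 0 ≤ rr c B ρ0 σ - a := by linarith
    have e1 := F.p0 _ hz0'
    have e2 : Real.exp (-(lam * (rr c B ρ0 σ - a))) ≤ Real.exp (-(lam * (yy c ρ0 σ / 2 - a))) := by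
      refine Real.exp_le_exp.2 ?_
      have : lam * (yy c ρ0 σ / 2 - a) ≤ lam * (rr c B ρ0 σ - a) := by gcongr
      linarith
    have e3 : C * Real.exp (-(lam * (rr c B ρ0 σ - a))) ≤
        C * Real.exp (-(lam * (yy c ρ0 σ / 2 - a))) := by gcongr
    have hs0 : 0 < √(yy c ρ0 σ) := Real.sqrt_pos.2 (hyp σ hτ)
    have e4 : 1 / √(yy c ρ0 σ) ≤ η' / 2 := by
      rw [div_le_iff₀ hη'] at Y10
      rw [div_le_div_iff₀ hs0 (by norm_num)]
      linarith
    have e5 : 1 / √(yy c ρ0 σ) * ps c (rr c B ρ0 σ - a) ≤ 1 / √(yy c ρ0 σ) * 1 := by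
      gcongr
      exact (ps_lt_one _ _).le
    unfold Sf
    linarith

end Pool.Agent.H90.RD
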