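import Pool.Agent.H91.RD.Targets

/-!
# Module P2B, part 1: the pointwise inequality for the super-barrier
-/

open MeasureTheory Set Filter Topology Metric

namespace Pool.Agent.H90.RD

open Pool.Agent.H91.RD

/-- the function `ψ` -/
noncomputable def ps (c z : ℝ) : ℝ := (1 + Real.exp (c / 2 * z))⁻¹

theorem ps_pos (c z : ℝ) : 0 < ps c z := by
  unfold ps
  have := Real.exp_pos (c / 2 * z)
  positivity

theorem ps_lt_one (c z : ℝ) : ps c z < 1 := by
  unfold ps
  have := Real.exp_pos (c / 2 * z)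
  exact inv_lt_one_of_one_lt₀ (by linarith)

theorem ps_le_half {c z : ℝ} (hc : 0 < c) (hz : 0 ≤ z) : ps c z ≤ 1 / 2 := by
  unfold ps
  have : 1 ≤ Real.exp (c / 2 * z) := Real.one_le_exp (by positivity)
  rw [inv_le_comm₀ (by positivity) (by norm_num)]
  norm_num
  linarith

theorem ps_ge_half {c z : ℝ} (hc : 0 < c) (hz : z ≤ 0) : 1 / 2 ≤ ps c z := by
  unfold ps
  have : Real.exp (c / 2 * z) ≤ 1 := Real.exp_le_one_iff.2 (by nlinarith)
  have h2 := Real.exp_pos (c / 2 * z)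
  rw [le_inv_comm₀ (by norm_num) (by positivity)]
  norm_num
  linarith

theorem ps_ge {c z : ℝ} (hc : 0 < c) (hz : 0 ≤ z) : 1 / 2 * Real.exp (-(c / 2 * z)) ≤ ps c z := by
  unfold ps
  have h1 : 1 ≤ Real.exp (c / 2 * z) := Real.one_le_exp (by positivity)
  have h2 : 1 / 2 * Real.exp (-(c / 2 * z)) = (2 * Real.exp (c / 2 * z))⁻¹ := by
    rw [Real.exp_neg, mul_inv]; norm_num
  rw [h2]
  exact inv_anti₀ (by positivity) (by linarith)

theorem ps_le_exp {c z : ℝ} : ps c z ≤ Real.exp (-(c / 2 * z)) := by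
  unfold ps
  rw [Real.exp_neg]
  have h2 := Real.exp_pos (c / 2 * z)
  exact inv_anti₀ h2 (by linarith)

theorem ps_anti {c z w : ℝ} (hc : 0 < c) (h : z ≤ w) : ps c w ≤ ps c z := by
  unfold ps
  have h2 := Real.exp_pos (c / 2 * z)
  refine inv_anti₀ (by positivity) ?_
  have : Real.exp (c / 2 * z) ≤ Real.exp (c / 2 * w) := Real.exp_le_exp.2 (by nlinarith)
  linarith

theorem brR {c ε1 k p α A : ℝ} (hc : 0 < c) (hε : 0 < ε1) (hk : k = c ^ 2 / 4 - 2 * ε1)
    (hp0 : 0 < p) (hp2 : p ≤ 1 / 2) (hα0 : 0 ≤ α) (hα1 : α ≤ 1) (hA0 : 0 ≤ A)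
    (hAa : c / 2 * A ≤ ε1 / 4) (hpz : c ^ 2 / 4 * p ≤ ε1 / 2) :
    p * (5 / 4 * ε1 + k) ≤ c ^ 2 / 2 * (p * (1 - p)) -
        c ^ 2 / 4 * (p * (1 - p) * (1 - 2 * p)) * (1 - α) - c / 2 * (p * (1 - p)) * A := by
  have hG0 : 0 ≤ p * (1 - p) := mul_nonneg hp0.le (by linarith)
  have e1 : c ^ 2 / 4 * (p * (1 - p) * (1 - 2 * p)) * (1 - α) ≤ c ^ 2 / 4 * (p * (1 - p)) := by
    have e2 : (1 - 2 * p) * (1 - α) ≤ 1 :=
      mul_le_one₀ (by linarith) (by linarith) (by linarith)
    have e3 : 0 ≤ c ^ 2 / 4 * (p * (1 - p)) := by positivity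
    calc c ^ 2 / 4 * (p * (1 - p) * (1 - 2 * p)) * (1 - α) =
        c ^ 2 / 4 * (p * (1 - p)) * ((1 - 2 * p) * (1 - α)) := by ring
      _ ≤ c ^ 2 / 4 * (p * (1 - p)) * 1 := mul_le_mul_of_nonneg_left e2 e3
      _ = _ := by ring
  have e4 : c / 2 * (p * (1 - p)) * A ≤ ε1 / 4 * (p * (1 - p)) := by
    calc c / 2 * (p * (1 - p)) * A = c / 2 * A * (p * (1 - p)) := by ring
      _ ≤ _ := mul_le_mul_of_nonneg_right hAa hG0
  have e5 : p * (5 / 4 * ε1 + k) ≤ (c ^ 2 / 4 - ε1 / 4) * (p * (1 - p)) := by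
    have e6 : 5 / 4 * ε1 + k ≤ (c ^ 2 / 4 - ε1 / 4) * (1 - p) := by
      rw [hk]
      have : 0 ≤ ε1 * p := by positivity
      linarith
    calc p * (5 / 4 * ε1 + k) ≤ p * ((c ^ 2 / 4 - ε1 / 4) * (1 - p)) :=
          mul_le_mul_of_nonneg_left e6 hp0.le
      _ = _ := by ring
  linarith

theorem brL {c μ p α A : ℝ} (hc : 0 < c) (hμ : 0 < μ) (hp0 : 0 < p) (hp1 : p < 1)
    (hp2 : 1 / 2 ≤ p) (hα1 : α ≤ 1) (hAy : c / 2 * A ≤ μ / 2) :
    -(μ / 2 * p) ≤ c ^ 2 / 2 * (p * (1 - p)) -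
      c ^ 2 / 4 * (p * (1 - p) * (1 - 2 * p)) * (1 - α) - c / 2 * (p * (1 - p)) * A := by
  have g1 : 0 ≤ 1 - p := by linarith
  have hG0 : 0 ≤ p * (1 - p) := mul_nonneg hp0.le g1
  have e2 : 0 ≤ c ^ 2 / 4 * (p * (1 - p)) * (2 * p - 1) * (1 - α) := by
    have h1 : 0 ≤ 2 * p - 1 := by linarith
    have h2 : 0 ≤ 1 - α := by linarith
    positivity
  have e3 : 0 ≤ c ^ 2 / 2 * (p * (1 - p)) := by positivity
  have e5 : p * (1 - p) ≤ p := by
    have : 0 ≤ p * p := by positivity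
    linarith
  have e6 : c / 2 * (p * (1 - p)) * A ≤ μ / 2 * p := by
    calc c / 2 * (p * (1 - p)) * A = c / 2 * A * (p * (1 - p)) := by ring
      _ ≤ μ / 2 * (p * (1 - p)) := mul_le_mul_of_nonneg_right hAy hG0
      _ ≤ μ / 2 * p := mul_le_mul_of_nonneg_left e5 (by positivity)
  have e7 : c ^ 2 / 4 * (p * (1 - p) * (1 - 2 * p)) * (1 - α) =
      -(c ^ 2 / 4 * (p * (1 - p)) * (2 * p - 1) * (1 - α)) := by ring
  linarith

theorem brM {c p α A : ℝ} (hc : 0 < c) (hp0 : 0 < p) (hp1 : p < 1) (hα0 : 0 ≤ α) (hα1 : α ≤ 1)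
    (hA0 : 0 ≤ A) (hA1 : A ≤ 1) :
    -(c ^ 2 / 4 + c) ≤ c ^ 2 / 2 * (p * (1 - p)) -
      c ^ 2 / 4 * (p * (1 - p) * (1 - 2 * p)) * (1 - α) - c / 2 * (p * (1 - p)) * A := by
  have g0 : 0 ≤ 1 - p := by linarith
  have g1 : p * (1 - p) ≤ 1 := mul_le_one₀ hp1.le g0 (by linarith)
  have hG0 : 0 ≤ p * (1 - p) := mul_nonneg hp0.le g0
  have e1 : c ^ 2 / 4 * (p * (1 - p) * (1 - 2 * p)) * (1 - α) ≤ c ^ 2 / 4 := by
    have e2 : p * (1 - p) * (1 - 2 * p) ≤ 1 := by
      calc p * (1 - p) * (1 - 2 * p) ≤ p * (1 - p) * 1 :=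
            mul_le_mul_of_nonneg_left (by linarith) hG0
        _ ≤ 1 := by linarith
    have e3 : p * (1 - p) * (1 - 2 * p) * (1 - α) ≤ 1 := by
      calc p * (1 - p) * (1 - 2 * p) * (1 - α) ≤ 1 * (1 - α) :=
            mul_le_mul_of_nonneg_right e2 (by linarith)
        _ ≤ 1 := by linarith
    calc c ^ 2 / 4 * (p * (1 - p) * (1 - 2 * p)) * (1 - α) =
        c ^ 2 / 4 * (p * (1 - p) * (1 - 2 * p) * (1 - α)) := by ring
      _ ≤ c ^ 2 / 4 * 1 := mul_le_mul_of_nonneg_left e3 (by positivity)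
      _ = _ := by ring
  have e3 : 0 ≤ c ^ 2 / 2 * (p * (1 - p)) := by positivity
  have e4 : c / 2 * (p * (1 - p)) * A ≤ c := by
    have h1 : (p * (1 - p)) * A ≤ 1 := mul_le_one₀ g1 hA0 hA1
    calc c / 2 * (p * (1 - p)) * A = c / 2 * ((p * (1 - p)) * A) := by ring
      _ ≤ c / 2 * 1 := mul_le_mul_of_nonneg_left h1 (by positivity)
      _ ≤ c := by linarith
  linarith

/-- the bad terms are at most `C e^{-lam z} (α + A)` -/
theorem bad_le {d1 d2 α A D : ℝ} (h1 : d1 ≤ D) (h2 : d2 ≤ D) (hα0 : 0 ≤ α) (hA0 : 0 ≤ A) :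
    d2 * α + d1 * A ≤ D * (α + A) := by
  have e1 := mul_le_mul_of_nonneg_right h2 hα0
  have e2 := mul_le_mul_of_nonneg_right h1 hA0
  linarith

/-- the pointwise inequality -/
theorem core (N : ℕ) {f φ : ℝ → ℝ} {c lam K k μ η0 θ β C : ℝ} (hN : 1 ≤ N)
    (H : Hyp f c lam φ K k μ η0 θ) (F : FrP c lam β C φ) {a z0 κ y ρ r : ℝ} (ha1 : 1 ≤ a)
    (haN : (N : ℝ) ≤ a) (haε : c * N / (2 * a) ≤ (c ^ 2 / 4 - k) / 2 / 4) (hz0 : 0 < z0)
    (h1 : φ z0 ≤ η0 / 2) (h2 : 1 - η0 / 2 ≤ φ (-z0))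
    (h3 : c ^ 2 / 4 * ps c z0 ≤ (c ^ 2 / 4 - k) / 2 / 2) (hκ : 0 < κ)
    (hκ' : ∀ z ∈ Icc (-z0) z0, κ ≤ -deriv φ z)
    (hy : 1 ≤ y) (Y1 : 2 / η0 ≤ √y) (Y2 : 4 * C * (2 * N + 4 * a ^ 2) / ((c ^ 2 / 4 - k) / 2) ≤ √y)
    (Y3 : C * (N + 1) * Real.exp (-((lam - c / 2) * (y / 4))) ≤ (c ^ 2 / 4 - k) / 2 / (2 * √y))
    (Y4 : 2 * c * N / μ ≤ y) (Y5 : 8 * C * (N + a ^ 2) / μ ≤ √y) (Y6 : 4 * z0 ≤ y)
    (Y7 : 4 * C * (N + a ^ 2) / (K + c ^ 2 / 4 + c) ≤ √y)
    (hρ : y / 2 ≤ ρ) (hr : a ≤ r)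
    (hS : φ (ρ - r) + 1 / √y * ps c (ρ - r) < 1) :
    0 ≤ 2 * (K + c ^ 2 / 4 + c) / (κ * √y) * (-deriv φ (ρ - r)) +
      (f (φ (ρ - r)) - f (φ (ρ - r) + 1 / √y * ps c (ρ - r))) -
      |deriv (deriv φ) (ρ - r)| * (a ^ 2 / r ^ 2) -
      |deriv φ (ρ - r)| * ((N - 1) / r + a ^ 2 / r ^ 3) +
      1 / √y * (c ^ 2 / 2 * (ps c (ρ - r) * (1 - ps c (ρ - r))) -
        c ^ 2 / 4 * (ps c (ρ - r) * (1 - ps c (ρ - r)) * (1 - 2 * ps c (ρ - r))) *
          (1 - a ^ 2 / r ^ 2) -
        c / 2 * (ps c (ρ - r) * (1 - ps c (ρ - r))) * ((N - 1) / r + a ^ 2 / r ^ 3)) := by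
  have hc : 0 < c := H.front.cpos
  have hK : 0 < K := H.toLip.K0
  have hμ := H.mu0
  have hη := H.eta0
  have hC : 1 ≤ C := F.one
  set ε1 := (c ^ 2 / 4 - k) / 2 with hε1
  have hε : 0 < ε1 := by have := H.kc; rw [hε1]; linarith
  set s := √y with hs
  have hy0 : 0 < y := by linarith
  have hs1 : 1 ≤ s := by rw [hs]; exact Real.one_le_sqrt.2 hy
  have hs0 : 0 < s := by linarith
  have hss : s * s = y := Real.mul_self_sqrt hy0.le
  set z := ρ - r with hz
  set p := ps c z with hp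
  have hp0 : 0 < p := ps_pos c z
  have hp1 : p < 1 := ps_lt_one c z
  have hr1 : 1 ≤ r := ha1.trans hr
  have hr0 : 0 < r := by linarith
  have hN1 : (1 : ℝ) ≤ N := by exact_mod_cast hN
  -- `A` and `α`
  set α := a ^ 2 / r ^ 2 with hα
  have hα0 : 0 ≤ α := by positivity
  have hα1 : α ≤ 1 := by
    rw [hα, div_le_one (by positivity)]
    gcongr
  set A := (N - 1) / r + a ^ 2 / r ^ 3 with hA
  have hA0 : 0 ≤ A := by
    have : (0 : ℝ) ≤ N - 1 := by linarith
    positivity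
  have hAr : A ≤ N / r := by
    have e1 : a ^ 2 / r ^ 3 = α * (1 / r) := by
      rw [hα]; field_simp
    have e2 : α * (1 / r) ≤ 1 * (1 / r) := by gcongr
    rw [hA, e1]
    calc (N - 1) / r + α * (1 / r) ≤ (N - 1) / r + 1 * (1 / r) := by linarith
      _ = N / r := by field_simp; ring
  have hA1 : A ≤ 1 := by
    refine hAr.trans ?_
    rw [div_le_one hr0]
    linarith
  have hAa : c / 2 * A ≤ ε1 / 4 := by
    have e1 : N / r ≤ N / a := by gcongr
    calc c / 2 * A ≤ c / 2 * (N / a) := by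
          refine mul_le_mul_of_nonneg_left (hAr.trans e1) (by positivity)
      _ = c * N / (2 * a) := by field_simp
      _ ≤ ε1 / 4 := haε
  have hαr : α ≤ a ^ 2 / r := by
    rw [hα]
    gcongr
    nlinarith
  set q := 1 / s with hq
  have hq0 : 0 < q := by positivity
  have hG0 : 0 ≤ p * (1 - p) := mul_nonneg hp0.le (by linarith)
  have hφ0 := F.pos z
  have hφ1 := F.lt z
  have hd1 : deriv φ z < 0 := H.front.dec z
  have hanti : StrictAnti φ := strictAnti_of_deriv_neg H.front.dec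
  have hfirst : 0 ≤ 2 * (K + c ^ 2 / 4 + c) / (κ * s) * (-deriv φ z) := by
    have : 0 < -deriv φ z := by linarith
    positivity
  have hqp : 0 < q * p := mul_pos hq0 hp0
  rcases le_total z0 z with hzR | hzR'
  · -- right
    have hz00 : 0 ≤ z := hz0.le.trans hzR
    have hp2 : p ≤ 1 / 2 := ps_le_half hc hz00
    have hφz : φ z ≤ η0 / 2 := (hanti.antitone hzR).trans h1
    have hq1 : q ≤ η0 / 2 := by
      have hh : 2 ≤ s * η0 := by rwa [div_le_iff₀ hη] at Y1
      rw [hq, div_le_div_iff₀ hs0 (by norm_num)]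
      linarith
    have hSle : φ z + q * p ≤ η0 := by
      have : q * p ≤ η0 / 2 * 1 := mul_le_mul hq1 hp1.le hp0.le (by linarith)
      linarith
    have hf : f (φ z + q * p) - f (φ z) ≤ k * (q * p) := by
      have := H.near0 (φ z) (φ z + q * p) hφ0.le (by linarith) hSle
      rwa [add_sub_cancel_left] at this
    have hpz : c ^ 2 / 4 * p ≤ ε1 / 2 :=
      (mul_le_mul_of_nonneg_left (ps_anti hc hzR) (by positivity)).trans h3
    have hbr := brR hc hε (show k = c ^ 2 / 4 - 2 * ε1 by rw [hε1]; ring) hp0 hp2 hα0 hα1 hA0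
      hAa hpz
    -- bad terms
    have hbad : |deriv (deriv φ) z| * α + |deriv φ z| * A ≤ ε1 * (q * p) := by
      have hb1 := F.p1 z hz00
      have hb2 := F.p2 z hz00
      have hex := Real.exp_pos (-(lam * z))
      have hpe : 1 / 2 * Real.exp (-(c / 2 * z)) ≤ p := ps_ge hc hz00
      have hexc := Real.exp_pos (-(c / 2 * z))
      have hsum : |deriv (deriv φ) z| * α + |deriv φ z| * A ≤
          C * Real.exp (-(lam * z)) * (α + A) := bad_le hb1 hb2 hα0 hA0
      refine hsum.trans ?_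
      have hgoal : ε1 * (q * (1 / 2 * Real.exp (-(c / 2 * z)))) ≤ ε1 * (q * p) := by
        gcongr
      refine le_trans ?_ hgoal
      have hCe : 0 < C * Real.exp (-(lam * z)) := by positivity
      rcases le_total (ρ / 2) r with hrr | hrr
      · have e1 : Real.exp (-(lam * z)) ≤ Real.exp (-(c / 2 * z)) := by
          refine Real.exp_le_exp.2 ?_
          have h9 : c / 2 * z ≤ lam * z := mul_le_mul_of_nonneg_right H.front.fast.le hz00
          linarith
        have hry : y / 4 ≤ r := by linarith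
        have e2 : α + A ≤ 2 * (2 * N + 4 * a ^ 2) / y := by
          have e3 : α + A ≤ (a ^ 2 + N) / r := by
            rw [add_div]; linarith
          refine e3.trans ?_
          rw [div_le_div_iff₀ hr0 hy0]
          have h7 : 0 ≤ a ^ 2 := by positivity
          have h8 : (a ^ 2 + N) * (y / 4) ≤ (a ^ 2 + N) * r := by gcongr
          have h9 : 0 ≤ a ^ 2 * r := by positivity
          linarith
        have e4 : 4 * C * (2 * N + 4 * a ^ 2) ≤ s * ε1 := by rwa [div_le_iff₀ hε] at Y2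
        have e5 : C * (α + A) ≤ ε1 * (q * (1 / 2)) := by
          calc C * (α + A) ≤ C * (2 * (2 * N + 4 * a ^ 2) / y) := by gcongr
            _ ≤ ε1 * (q * (1 / 2)) := by
              rw [hq, ← hss]
              rw [show C * (2 * (2 * N + 4 * a ^ 2) / (s * s)) =
                (4 * C * (2 * N + 4 * a ^ 2)) / (2 * (s * s)) by ring]
              rw [show ε1 * (1 / s * (1 / 2)) = (s * ε1) / (2 * (s * s)) by field_simp]
              gcongr
        calc C * Real.exp (-(lam * z)) * (α + A) = C * (α + A) * Real.exp (-(lam * z)) := by ring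
          _ ≤ ε1 * (q * (1 / 2)) * Real.exp (-(c / 2 * z)) := by gcongr
          _ = _ := by ring
      · have hzz : y / 4 ≤ z := by rw [hz]; linarith
        have e1 : Real.exp (-(lam * z)) ≤ Real.exp (-((lam - c / 2) * (y / 4))) *
            Real.exp (-(c / 2 * z)) := by
          rw [← Real.exp_add]
          refine Real.exp_le_exp.2 ?_
          have h9 : (lam - c / 2) * (y / 4) ≤ (lam - c / 2) * z :=
            mul_le_mul_of_nonneg_left hzz (by linarith [H.front.fast])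
          linarith
        have e2 : α + A ≤ N + 1 := by linarith
        calc C * Real.exp (-(lam * z)) * (α + A) ≤
            C * (Real.exp (-((lam - c / 2) * (y / 4))) * Real.exp (-(c / 2 * z))) * (N + 1) := by
              gcongr
          _ = C * (N + 1) * Real.exp (-((lam - c / 2) * (y / 4))) * Real.exp (-(c / 2 * z)) := by
              ring
          _ ≤ ε1 / (2 * s) * Real.exp (-(c / 2 * z)) := by gcongr
          _ = _ := by rw [hq]; field_simp
    have hm := mul_le_mul_of_nonneg_left hbr hq0.le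
    have he : q * (p * (5 / 4 * ε1 + k)) = 5 / 4 * (ε1 * (q * p)) + k * (q * p) := by ring
    have hep : 0 < ε1 * (q * p) := mul_pos hε hqp
    rw [he] at hm
    linarith
  · rcases le_total z (-z0) with hzL | hzL'
    · -- left
      have hz00 : z ≤ 0 := by linarith
      have hp2 : 1 / 2 ≤ p := ps_ge_half hc hz00
      have hφz : 1 - η0 / 2 ≤ φ z := h2.trans (hanti.antitone hzL)
      have hf : f (φ z + q * p) - f (φ z) ≤ -(μ * (q * p)) := by
        have := H.near1 (φ z) (φ z + q * p) (by linarith) (by linarith) hS.le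
        rwa [add_sub_cancel_left] at this
      have hry : y / 2 ≤ r := by rw [hz] at hz00; linarith
      have hAy : c / 2 * A ≤ μ / 2 := by
        have e1 : A ≤ N / (y / 2) := hAr.trans (by gcongr)
        have e2 : 2 * c * N ≤ y * μ := by rwa [div_le_iff₀ hμ] at Y4
        calc c / 2 * A ≤ c / 2 * (N / (y / 2)) := by gcongr
          _ = c * N / y := by field_simp
          _ ≤ μ / 2 := by rw [div_le_div_iff₀ hy0 (by norm_num)]; linarith
      have hbr := brL hc hμ hp0 hp1 hp2 hα1 hAy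
      have hbad : |deriv (deriv φ) z| * α + |deriv φ z| * A ≤ μ / 4 * q := by
        have hb1 := F.d1 z
        have hb2 := F.d2 z
        have e0 : |deriv (deriv φ) z| * α + |deriv φ z| * A ≤ C * (α + A) :=
          bad_le hb1 hb2 hα0 hA0
        refine e0.trans ?_
        have e3 : α + A ≤ (N + a ^ 2) / (y / 2) := by
          have e4 : α + A ≤ (N + a ^ 2) / r := by rw [add_div]; linarith
          exact e4.trans (by gcongr)
        have e5 : 8 * C * (N + a ^ 2) ≤ s * μ := by rwa [div_le_iff₀ hμ] at Y5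
        calc C * (α + A) ≤ C * ((N + a ^ 2) / (y / 2)) := by gcongr
          _ = (8 * C * (N + a ^ 2)) / (4 * (s * s)) := by rw [hss]; field_simp; ring
          _ ≤ (s * μ) / (4 * (s * s)) := by gcongr
          _ = μ / 4 * q := by rw [hq]; field_simp
      have hm := mul_le_mul_of_nonneg_left hbr hq0.le
      have hqh : q * (1 / 2) ≤ q * p := by gcongr
      have hqm : μ * (q * (1 / 2)) ≤ μ * (q * p) := by gcongr
      have he : q * -(μ / 2 * p) = -(μ * (q * p) / 2) := by ring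
      rw [he] at hm
      linarith
    · -- middle
      have hzI : z ∈ Icc (-z0) z0 := ⟨hzL', hzR'⟩
      have hk := hκ' z hzI
      set M := K + c ^ 2 / 4 + c with hM
      have hM0 : 0 < M := by positivity
      have hfst : 2 * M * q ≤ 2 * M / (κ * s) * (-deriv φ z) := by
        calc 2 * M * q = 2 * M / (κ * s) * κ := by rw [hq]; field_simp
          _ ≤ _ := by gcongr
      have hf : -(K * q) ≤ f (φ z) - f (φ z + q * p) := by
        have h5 := H.toLip.lip (φ z + q * p) (φ z)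
        rw [add_sub_cancel_left, abs_of_pos hqp] at h5
        have h6 := (abs_le.1 h5).2
        have h7 : K * (q * p) ≤ K * q := by
          have : q * p ≤ q * 1 := mul_le_mul_of_nonneg_left hp1.le hq0.le
          rw [mul_one] at this
          gcongr
        linarith
      have hbr := brM hc hp0 hp1 hα0 hα1 hA0 hA1
      have hbad : |deriv (deriv φ) z| * α + |deriv φ z| * A ≤ M * q := by
        have hb1 := F.d1 z
        have hb2 := F.d2 z
        have e0 : |deriv (deriv φ) z| * α + |deriv φ z| * A ≤ C * (α + A) :=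
          bad_le hb1 hb2 hα0 hA0
        refine e0.trans ?_
        have hry : y / 4 ≤ r := by
          rw [hz] at hzR'; linarith
        have e3 : α + A ≤ (N + a ^ 2) / (y / 4) := by
          have e4 : α + A ≤ (N + a ^ 2) / r := by rw [add_div]; linarith
          exact e4.trans (by gcongr)
        have e5 : 4 * C * (N + a ^ 2) ≤ s * M := by rwa [div_le_iff₀ hM0] at Y7
        calc C * (α + A) ≤ C * ((N + a ^ 2) / (y / 4)) := by gcongr
          _ = (4 * C * (N + a ^ 2)) / (s * s) := by rw [hss]; field_simp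
          _ ≤ (s * M) / (s * s) := by gcongr
          _ = M * q := by rw [hq]; field_simp
      have hm := mul_le_mul_of_nonneg_left hbr hq0.le
      have he : q * -(c ^ 2 / 4 + c) = -(M * q) + K * q := by rw [hM]; ring
      rw [he] at hm
      linarith

end Pool.Agent.H90.RD
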