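import Pool.Agent.H90.RD.Line

/-!
# Module RAD: Laplacian of a radial function
-/

open MeasureTheory Set Filter Topology Metric

namespace Pool.Agent.H90.RD

open Pool.Agent.H91.RD

theorem rad_smooth {N : ℕ} {a : ℝ} (ha : 0 < a) (x0 : E N) {S : ℝ → ℝ} (hS : ContDiff ℝ 2 S) :
    ContDiff ℝ 2 (fun x : E N => S (√(a ^ 2 + ‖x - x0‖ ^ 2))) := by
  refine hS.comp ?_
  refine ContDiff.sqrt ?_ fun x => ?_
  · exact contDiff_const.add ((contDiff_id.sub contDiff_const).norm_sq ℝ)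
  · positivity

theorem RAD : T_RAD := by
  intro N a x0 S ha hS
  refine ⟨rad_smooth ha x0 hS, fun x => ?_⟩
  have hg := rad_smooth ha x0 hS
  set r := √(a ^ 2 + ‖x - x0‖ ^ 2) with hr
  have hr0 : 0 < r := Real.sqrt_pos.2 (by positivity)
  have hrsq : r ^ 2 = a ^ 2 + ‖x - x0‖ ^ 2 := Real.sq_sqrt (by positivity)
  have hS1 : ∀ s, HasDerivAt S (deriv S s) s := fun s =>
    (hS.differentiable (by norm_num)).differentiableAt.hasDerivAt
  have hS2 : ∀ s, HasDerivAt (deriv S) (deriv (deriv S) s) s := by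
    intro s
    have h1 : ContDiff ℝ 1 (deriv S) := by
      have : ContDiff ℝ (1 + 1) S := by rw [one_add_one_eq_two]; exact hS
      exact (contDiff_succ_iff_deriv.1 this).2.2
    exact (h1.differentiable (by norm_num)).differentiableAt.hasDerivAt
  have key : ∀ v : E N, ‖v‖ = 1 → fderiv ℝ (fderiv ℝ
      (fun x : E N => S (√(a ^ 2 + ‖x - x0‖ ^ 2)))) x v v =
      deriv (deriv S) r * ((inner ℝ (x - x0) v) ^ 2 / r ^ 2) +
        deriv S r * (1 / r - (inner ℝ (x - x0) v) ^ 2 / r ^ 3) := by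
    intro v hv
    set b := inner ℝ (x - x0) v with hb
    have hform : ∀ t : ℝ, a ^ 2 + ‖x + t • v - x0‖ ^ 2 = r ^ 2 + 2 * t * b + t ^ 2 := by
      intro t
      have : x + t • v - x0 = (x - x0) + t • v := by abel
      rw [this, norm_add_sq_real, norm_smul, hv, inner_smul_right, hrsq, Real.norm_eq_abs, mul_one,
        sq_abs, ← hb]
      ring
    have hpos : ∀ t : ℝ, 0 < r ^ 2 + 2 * t * b + t ^ 2 := by
      intro t; rw [← hform]; positivity
    have hρ : ∀ t : ℝ, HasDerivAt (fun t : ℝ => √(r ^ 2 + 2 * t * b + t ^ 2))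
        ((b + t) / √(r ^ 2 + 2 * t * b + t ^ 2)) t := by
      intro t
      have h1 : HasDerivAt (fun t : ℝ => r ^ 2 + 2 * t * b + t ^ 2) (2 * b + 2 * t) t := by
        have h2 := (((hasDerivAt_id t).const_mul 2).mul_const b).const_add (r ^ 2)
        have h3 := h2.add ((hasDerivAt_id t).pow 2)
        refine h3.congr_deriv ?_
        simp
      have h2 := h1.sqrt (hpos t).ne'
      refine h2.congr_deriv ?_
      rw [show 2 * b + 2 * t = 2 * (b + t) by ring, mul_div_mul_left _ _ (by norm_num)]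
    refine line_eq (p := fun t => deriv S (√(r ^ 2 + 2 * t * b + t ^ 2)) *
      ((b + t) / √(r ^ 2 + 2 * t * b + t ^ 2))) hg.contDiffAt ?_ ?_
    · intro t
      have h1 := (hS1 (√(r ^ 2 + 2 * t * b + t ^ 2))).comp t (hρ t)
      refine h1.congr_of_eventuallyEq (Eventually.of_forall fun s => ?_)
      simp only [Function.comp]
      rw [hform]
    · have e0 : √(r ^ 2 + 2 * 0 * b + 0 ^ 2) = r := by
        rw [show r ^ 2 + 2 * 0 * b + (0 : ℝ) ^ 2 = r ^ 2 by ring, Real.sqrt_sq hr0.le]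
      have h1 := (hS2 (√(r ^ 2 + 2 * 0 * b + 0 ^ 2))).comp 0 (hρ 0)
      have h2 := (((hasDerivAt_id (0 : ℝ)).const_add b)).div (hρ 0) (by rw [e0]; exact hr0.ne')
      have h3 := h1.mul h2
      refine h3.congr_deriv ?_
      simp only [Function.comp, Pi.div_apply, e0, id, add_zero]
      field_simp
  rw [lap_eq_sum]
  rw [Finset.sum_congr rfl fun i _ => key _ (by simp)]
  have e1 : ∑ i, (inner ℝ (x - x0) (EuclideanSpace.basisFun (Fin N) ℝ i)) ^ 2 / r ^ 2 =
      ‖x - x0‖ ^ 2 / r ^ 2 := by rw [← Finset.sum_div, sum_inner_sq]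
  have e2 : ∑ i, (1 / r - (inner ℝ (x - x0) (EuclideanSpace.basisFun (Fin N) ℝ i)) ^ 2 / r ^ 3) =
      N * (1 / r) - ‖x - x0‖ ^ 2 / r ^ 3 := by
    have e3 : ∑ i, (inner ℝ (x - x0) (EuclideanSpace.basisFun (Fin N) ℝ i)) ^ 2 / r ^ 3 =
        ‖x - x0‖ ^ 2 / r ^ 3 := by rw [← Finset.sum_div, sum_inner_sq]
    rw [Finset.sum_sub_distrib, e3, Finset.sum_const, Finset.card_univ,
      Fintype.card_fin, nsmul_eq_mul]
  rw [Finset.sum_add_distrib, ← Finset.mul_sum, ← Finset.mul_sum, e1, e2]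
  have h1 : ‖x - x0‖ ^ 2 = r ^ 2 - a ^ 2 := by rw [hrsq]; ring
  rw [h1, radL]
  have h2 : (r ^ 2 - a ^ 2) / r ^ 2 = 1 - a ^ 2 / r ^ 2 := by field_simp
  have h3 : N * (1 / r) - (r ^ 2 - a ^ 2) / r ^ 3 = (N - 1) / r + a ^ 2 / r ^ 3 := by
    field_simp; ring
  rw [h2, h3]

end Pool.Agent.H90.RD
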